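import Pool.Agent.H597R2.Nev

set_option autoImplicit false

namespace Pool.Agent.H597R2

open Complex Metric Set Filter Topology

theorem majorant_inside {Z Ψ f g : ℂ → ℂ} (hZ : DifferentiableOn ℂ Z (ball 0 1))
    (hΨc : ContinuousOn Ψ (ball 0 1))
    (hΨ1 : ∀ α ∈ ball (0 : ℂ) 1, Ψ α ∈ ball (0 : ℂ) 1)
    (hZΨ : ∀ w ∈ ball (0 : ℂ) 1, Ψ (Z w) = w) (hΨZ : ∀ α ∈ ball (0 : ℂ) 1, Z (Ψ α) = α)
    (hf : DifferentiableOn ℂ f (ball 0 1)) (hg : DifferentiableOn ℂ g (ball 0 1))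
    (hg0 : ∀ w ∈ ball (0 : ℂ) 1, g w ≠ 0) {r : ℝ} (hr1 : r < 1)
    (hb : ∀ w ∈ ball (0 : ℂ) 1, ‖Z w‖ = r → 1 < ‖g w‖ ∧ ‖f w‖ < ‖g w‖) :
    ∀ w ∈ ball (0 : ℂ) 1, ‖Z w‖ ≤ r → 1 ≤ ‖g w‖ ∧ ‖f w‖ ≤ ‖g w‖ := by
  set U : Set ℂ := {w | w ∈ ball (0 : ℂ) 1 ∧ ‖Z w‖ < r} with hU
  set K : Set ℂ := {w | w ∈ ball (0 : ℂ) 1 ∧ ‖Z w‖ ≤ r} with hK
  have hKc : IsCompact K := by
    have : K = Ψ '' closedBall 0 r := by
      ext w
      constructor
      · rintro ⟨hw, hw2⟩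
        exact ⟨Z w, by simpa using hw2, hZΨ w hw⟩
      · rintro ⟨α, hα, rfl⟩
        have hα' : α ∈ ball (0 : ℂ) 1 := closedBall_subset_ball hr1 hα
        refine ⟨hΨ1 α hα', ?_⟩
        rw [hΨZ α hα']
        simpa using hα
    rw [this]
    exact (isCompact_closedBall 0 r).image_of_continuousOn
      (hΨc.mono (closedBall_subset_ball hr1))
  have hUo : IsOpen U := by
    have h1 : ContinuousOn (fun w => ‖Z w‖) (ball 0 1) := hZ.continuousOn.norm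
    have := h1.isOpen_inter_preimage isOpen_ball (isOpen_Iio (a := r))
    exact this
  have hUK : closure U ⊆ K := by
    apply closure_minimal _ hKc.isClosed
    intro w hw
    exact ⟨hw.1, hw.2.le⟩
  have hUb : Bornology.IsBounded U := hKc.isBounded.subset (subset_closure.trans hUK)
  have hfr : ∀ w ∈ frontier U, w ∈ ball (0 : ℂ) 1 ∧ ‖Z w‖ = r := by
    intro w hw
    have h1 : w ∈ K := hUK hw.1
    refine ⟨h1.1, le_antisymm h1.2 ?_⟩
    by_contra hcon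
    push Not at hcon
    have h2 : w ∈ interior U := by
      rw [hUo.interior_eq]
      exact ⟨h1.1, hcon⟩
    exact hw.2 h2
  have hclb : closure U ⊆ ball (0 : ℂ) 1 := fun w hw => (hUK hw).1
  have hinv : ∀ w ∈ closure U, ‖(g w)⁻¹‖ ≤ 1 := by
    intro w hw
    apply Complex.norm_le_of_forall_mem_frontier_norm_le hUb (f := fun w => (g w)⁻¹) _ _ hw
    · apply DifferentiableOn.diffContOnCl
      exact (hg.inv hg0).mono hclb
    · intro v hv
      obtain ⟨hv1, hv2⟩ := hfr v hv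
      have := (hb v hv1 hv2).1
      simp only [norm_inv]
      exact inv_le_one_of_one_le₀ this.le
  have hquo : ∀ w ∈ closure U, ‖f w / g w‖ ≤ 1 := by
    intro w hw
    apply Complex.norm_le_of_forall_mem_frontier_norm_le hUb (f := fun w => f w / g w) _ _ hw
    · apply DifferentiableOn.diffContOnCl
      exact (hf.div hg hg0).mono hclb
    · intro v hv
      obtain ⟨hv1, hv2⟩ := hfr v hv
      have h1 := (hb v hv1 hv2).1
      have h2 := (hb v hv1 hv2).2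
      simp only [norm_div]
      rw [div_le_one (by linarith)]
      exact h2.le
  intro w hw hwr
  rcases eq_or_lt_of_le hwr with h | h
  · obtain ⟨h1, h2⟩ := hb w hw h
    exact ⟨h1.le, h2.le⟩
  · have hwU : w ∈ closure U := subset_closure ⟨hw, h⟩
    have h1 := hinv w hwU
    have h2 := hquo w hwU
    have hgpos : 0 < ‖g w‖ := norm_pos_iff.mpr (hg0 w hw)
    rw [norm_inv] at h1
    rw [norm_div, div_le_one hgpos] at h2
    refine ⟨?_, h2⟩
    exact (inv_le_one₀ hgpos).mp h1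

theorem nonadm_of_formula {Z Ψ f : ℂ → ℂ} (hZ : DifferentiableOn ℂ Z (ball 0 1))
    (hZ1 : ∀ w ∈ ball (0 : ℂ) 1, ‖Z w‖ < 1)
    (hΨc : ContinuousOn Ψ (ball 0 1))
    (hΨ1 : ∀ α ∈ ball (0 : ℂ) 1, Ψ α ∈ ball (0 : ℂ) 1)
    (hZΨ : ∀ w ∈ ball (0 : ℂ) 1, Ψ (Z w) = w) (hΨZ : ∀ α ∈ ball (0 : ℂ) 1, Z (Ψ α) = α)
    (hf : DifferentiableOn ℂ f (ball 0 1)) {b0 : ℂ} (hb0 : b0 ∈ ball (0 : ℂ) 1)
    {N : ℕ} {ρ : ℝ} (hρ : ρ < 1)
    (H : ∀ r, ρ < r → r < 1 → ∃ g : ℂ → ℂ, DifferentiableOn ℂ g (ball 0 1) ∧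
      (∀ w ∈ ball (0 : ℂ) 1, g w ≠ 0) ∧ ‖g b0‖ < ((1 - r)⁻¹) ^ N ∧
      ∀ w ∈ ball (0 : ℂ) 1, ‖Z w‖ = r → 1 < ‖g w‖ ∧ ‖f w‖ < ‖g w‖) :
    Asymptotics.IsBigO (𝓝[<] (1 : ℝ)) (TT f) (fun r : ℝ => Real.log (1 - r)⁻¹) := by
  have hb1 : ‖b0‖ < 1 := by simpa using hb0
  set κ := (1 - ‖Z 0‖) / 4 with hκ
  have hκ0 : 0 < κ := by
    have := hZ1 0 (mem_ball_self one_pos)
    rw [hκ]; linarith
  have hκ1 : κ < 1 := by
    rw [hκ]; have := norm_nonneg (Z 0); linarith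
  -- threshold
  set s0 := max ((1 + ‖b0‖) / 2) (max (1 - κ) (1 - (1 - ρ) / κ)) with hs0
  have hs01 : s0 < 1 := by
    rw [hs0]
    apply max_lt (by linarith) (max_lt (by linarith) _)
    have : 0 < (1 - ρ) / κ := div_pos (by linarith) hκ0
    linarith
  apply Asymptotics.IsBigO.of_bound (8 * N / (1 - ‖b0‖))
  have hev : ∀ᶠ s in 𝓝[<] (1 : ℝ), s ∈ Ioo s0 1 := Ioo_mem_nhdsLT hs01
  filter_upwards [hev] with s hs
  have hs1 : s < 1 := hs.2
  have ha1 : (1 + ‖b0‖) / 2 < s := lt_of_le_of_lt (le_max_left _ _) hs.1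
  have ha2 : 1 - κ < s := lt_of_le_of_lt ((le_max_left _ _).trans (le_max_right _ _)) hs.1
  have ha3 : 1 - (1 - ρ) / κ < s :=
    lt_of_le_of_lt ((le_max_right _ _).trans (le_max_right _ _)) hs.1
  have hspos : 0 < s := lt_of_le_of_lt (by have := norm_nonneg b0; positivity) ha1
  set r := 1 - κ * (1 - s) with hr
  have hr1 : r < 1 := by
    rw [hr]; have : 0 < κ * (1 - s) := mul_pos hκ0 (by linarith)
    linarith
  have hrρ : ρ < r := by
    rw [hr]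
    have h1 : 1 - s < (1 - ρ) / κ := by linarith
    rw [lt_div_iff₀ hκ0] at h1
    nlinarith
  obtain ⟨g, hg, hg0, hgb, hgm⟩ := H r hrρ hr1
  have hmaj := majorant_inside hZ hΨc hΨ1 hZΨ hΨZ hf hg hg0 hr1 hgm
  obtain ⟨G, hG, hGg⟩ := exists_log_ball one_pos hg hg0
  have hsub : closedBall (0 : ℂ) s ⊆ ball 0 1 := closedBall_subset_ball hs1
  have hin : ∀ w ∈ closedBall (0 : ℂ) s, 1 ≤ ‖g w‖ ∧ ‖f w‖ ≤ ‖g w‖ := by
    intro w hw
    apply hmaj w (hsub hw)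
    have h1 := self_map_estimate hZ hZ1 (hsub hw)
    rw [← hκ] at h1
    have h2 : ‖w‖ ≤ s := by simpa using hw
    have h3 : κ * (1 - s) ≤ κ * (1 - ‖w‖) := by gcongr
    rw [hr]
    linarith
  have hnorm : ∀ w ∈ ball (0 : ℂ) 1, ‖g w‖ = Real.exp (G w).re := by
    intro w hw
    rw [← hGg w hw, Complex.norm_exp]
  have hre : ∀ w ∈ closedBall (0 : ℂ) s, 0 ≤ (G w).re := by
    intro w hw
    have := (hin w hw).1
    rw [hnorm w (hsub hw)] at this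
    rwa [Real.one_le_exp_iff] at this
  have hT : TT f s ≤ (G 0).re := by
    apply TT_le_of_majorant hspos hs1 hf hG
    · intro w hw
      exact hre w (sphere_subset_closedBall hw)
    · intro w hw
      have hw' := sphere_subset_closedBall hw
      rw [← hnorm w (hsub hw')]
      exact (hin w hw').2
  have hb0s : b0 ∈ ball (0 : ℂ) s := by
    rw [mem_ball_zero_iff]; linarith
  have hhar := harnack hspos hs1 hG (fun w hw => hre w (sphere_subset_closedBall hw)) hb0s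
  have hG0 : 0 ≤ (G 0).re := hre 0 (mem_closedBall_self hspos.le)
  have hk : (1 - ‖b0‖) / 4 ≤ (s - ‖b0‖) / (s + ‖b0‖) := by
    rw [le_div_iff₀ (by have := norm_nonneg b0; positivity)]
    nlinarith [norm_nonneg b0]
  have hGb : (G b0).re ≤ N * Real.log (1 - r)⁻¹ := by
    rw [hnorm b0 hb0] at hgb
    have h1 : Real.exp (G b0).re ≤ Real.exp (N * Real.log (1 - r)⁻¹) := by
      rw [Real.exp_nat_mul, Real.exp_log (by rw [inv_pos]; linarith)]
      exact hgb.le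
    exact Real.exp_le_exp.mp h1
  have hlog : Real.log (1 - r)⁻¹ ≤ 2 * Real.log (1 - s)⁻¹ := by
    have h1 : 1 - r = κ * (1 - s) := by rw [hr]; ring
    rw [h1, mul_inv, Real.log_mul (inv_ne_zero hκ0.ne') (inv_ne_zero (by linarith))]
    have h2 : Real.log κ⁻¹ ≤ Real.log (1 - s)⁻¹ := by
      apply Real.log_le_log (inv_pos.mpr hκ0)
      apply inv_anti₀ <;> linarith
    linarith
  have hfin : (G 0).re ≤ 8 * N / (1 - ‖b0‖) * Real.log (1 - s)⁻¹ := by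
    have h1 : (1 - ‖b0‖) / 4 * (G 0).re ≤ 2 * N * Real.log (1 - s)⁻¹ := by
      calc (1 - ‖b0‖) / 4 * (G 0).re ≤ (s - ‖b0‖) / (s + ‖b0‖) * (G 0).re := by gcongr
        _ ≤ (G b0).re := hhar
        _ ≤ N * Real.log (1 - r)⁻¹ := hGb
        _ ≤ N * (2 * Real.log (1 - s)⁻¹) := by gcongr
        _ = _ := by ring
    have h2 : 0 < 1 - ‖b0‖ := by linarith
    rw [div_mul_eq_mul_div, le_div_iff₀ h2]
    linarith
  have hlog0 : 0 ≤ Real.log (1 - s)⁻¹ := by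
    apply Real.log_nonneg
    rw [one_le_inv₀ (by linarith)]
    linarith
  rw [Real.norm_of_nonneg (TT_nonneg f s), Real.norm_of_nonneg hlog0]
  exact hT.trans hfin

end Pool.Agent.H597R2
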