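import Pool.Agent.H597R2.Nev

set_option autoImplicit false

namespace Pool.Agent.H597R2

open Complex Metric Set Filter Topology

theorem fourier_nat_eq (k : ℕ) (x : AddCircle (1 : ℝ)) :
    fourier (k : ℤ) x = (AddCircle.toCircle x : ℂ) ^ k := by
  induction k with
  | zero => simp
  | succ k ih =>
    push_cast
    rw [fourier_add, ih, fourier_one, pow_succ]

theorem exists_harmonic_approx {u : ℂ → ℝ} {r ε : ℝ} (hr : 0 < r)
    (hu : ContinuousOn u (sphere 0 r)) (hε : 0 < ε) :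
    ∃ P : ℂ → ℂ, Differentiable ℂ P ∧
      ∀ w ∈ sphere (0 : ℂ) r, u w < (P w).re ∧ (P w).re < u w + ε := by
  set c : AddCircle (1 : ℝ) → ℂ := fun x => r * (AddCircle.toCircle x : ℂ) with hc
  have hcc : Continuous c := by
    rw [hc]
    exact continuous_const.mul (continuous_subtype_val.comp AddCircle.continuous_toCircle)
  have hcs : ∀ x, c x ∈ sphere (0 : ℂ) r := by
    intro x
    simp [hc, abs_of_pos hr]
  have hvc : Continuous (fun x => ((u (c x) + ε / 2 : ℝ) : ℂ)) := by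
    apply Complex.continuous_ofReal.comp
    apply Continuous.add _ continuous_const
    exact hu.comp_continuous hcc hcs
  set v : C(AddCircle (1 : ℝ), ℂ) := ⟨fun x => ((u (c x) + ε / 2 : ℝ) : ℂ), hvc⟩ with hv
  have hmem : v ∈ (Submodule.span ℂ (range <| @fourier (1 : ℝ))).topologicalClosure := by
    rw [span_fourier_closure_eq_top]; trivial
  have hmem2 : v ∈ closure ((Submodule.span ℂ (range <| @fourier (1 : ℝ)) :
      Submodule ℂ C(AddCircle (1 : ℝ), ℂ)) : Set C(AddCircle (1 : ℝ), ℂ)) := hmem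
  obtain ⟨p, hp, hvp⟩ := Metric.mem_closure_iff.mp hmem2 (ε / 2) (by positivity)
  have hQ : ∃ P₁ P₂ : ℂ → ℂ, Differentiable ℂ P₁ ∧ Differentiable ℂ P₂ ∧
      ∀ x, p x = P₁ (c x) + (starRingEnd ℂ) (P₂ (c x)) := by
    refine Submodule.span_induction (p := fun p _ => ∃ P₁ P₂ : ℂ → ℂ, Differentiable ℂ P₁ ∧
      Differentiable ℂ P₂ ∧ ∀ x, p x = P₁ (c x) + (starRingEnd ℂ) (P₂ (c x))) ?_ ?_ ?_ ?_ hp
    · rintro _ ⟨n, rfl⟩
      have hrC : (r : ℂ) ≠ 0 := by exact_mod_cast hr.ne'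
      have hdiv : ∀ x, c x / r = (AddCircle.toCircle x : ℂ) := by
        intro x; rw [hc]; field_simp
      rcases Int.eq_nat_or_neg n with ⟨k, rfl | rfl⟩
      · refine ⟨fun w => (w / r) ^ k, fun _ => 0, by fun_prop, by fun_prop, fun x => ?_⟩
        simp only
        rw [hdiv, fourier_nat_eq]; simp
      · refine ⟨fun _ => 0, fun w => (w / r) ^ k, by fun_prop, by fun_prop, fun x => ?_⟩
        simp only
        rw [hdiv, fourier_neg, fourier_nat_eq]; simp
    · exact ⟨fun _ => 0, fun _ => 0, by fun_prop, by fun_prop, fun x => by simp⟩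
    · rintro a b _ _ ⟨P₁, P₂, h1, h2, h3⟩ ⟨Q₁, Q₂, g1, g2, g3⟩
      refine ⟨fun w => P₁ w + Q₁ w, fun w => P₂ w + Q₂ w, h1.add g1, h2.add g2, fun x => ?_⟩
      simp only [ContinuousMap.add_apply, h3, g3, map_add]
      ring
    · rintro a b _ ⟨P₁, P₂, h1, h2, h3⟩
      refine ⟨fun w => a * P₁ w, fun w => (starRingEnd ℂ) a * P₂ w, h1.const_mul _,
        h2.const_mul _, fun x => ?_⟩
      simp only [ContinuousMap.smul_apply, h3, map_mul, smul_eq_mul, RingHomCompTriple.comp_apply,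
        RingHom.id_apply]
      ring
  obtain ⟨P₁, P₂, h1, h2, h3⟩ := hQ
  refine ⟨fun w => P₁ w + P₂ w, h1.add h2, ?_⟩
  intro w hw
  obtain ⟨x, hx⟩ : ∃ x, c x = w := by
    have hwr : ‖w / r‖ = 1 := by
      rw [norm_div]
      have : ‖w‖ = r := by simpa using hw
      rw [this]
      simp [abs_of_pos hr, hr.ne']
    set ζ : Circle := ⟨w / r, by rw [Submonoid.unitSphere, Submonoid.mem_mk]; simpa using hwr⟩ with hζ
    obtain ⟨x, hx⟩ := (AddCircle.homeomorphCircle (T := (1 : ℝ)) one_ne_zero).surjective ζ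
    refine ⟨x, ?_⟩
    rw [AddCircle.homeomorphCircle_apply] at hx
    simp only [hc]
    rw [hx, hζ]
    have hrC : (r : ℂ) ≠ 0 := by exact_mod_cast hr.ne'
    simp only
    field_simp
  have hdist : dist (v x) (p x) < ε / 2 := lt_of_le_of_lt (ContinuousMap.dist_apply_le_dist x) hvp
  rw [h3 x] at hdist
  have hvx : v x = ((u (c x) + ε / 2 : ℝ) : ℂ) := rfl
  rw [hvx, dist_eq_norm] at hdist
  have hre := Complex.abs_re_le_norm
    (((u (c x) + ε / 2 : ℝ) : ℂ) - (P₁ (c x) + (starRingEnd ℂ) (P₂ (c x))))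
  have hre2 : (((u (c x) + ε / 2 : ℝ) : ℂ) - (P₁ (c x) + (starRingEnd ℂ) (P₂ (c x)))).re
      = u w + ε / 2 - ((P₁ w).re + (P₂ w).re) := by
    rw [hx]
    simp
  rw [hre2] at hre
  have h5 := lt_of_le_of_lt hre hdist
  rw [abs_lt] at h5
  simp only [add_re]
  constructor <;> linarith [h5.1, h5.2]

theorem formula_of_nonadm {f : ℂ → ℂ} (hf : DifferentiableOn ℂ f (ball 0 1))
    (hO : Asymptotics.IsBigO (𝓝[<] (1 : ℝ)) (TT f) (fun r : ℝ => Real.log (1 - r)⁻¹)) :
    ∃ (N : ℕ) (ρ : ℝ), 0 < ρ ∧ ρ < 1 ∧ ∀ r, ρ < r → r < 1 → ∃ g : ℂ → ℂ,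
      DifferentiableOn ℂ g (ball 0 1) ∧
      (∀ w ∈ ball (0 : ℂ) 1, g w ≠ 0) ∧ ‖g 0‖ < ((1 - r)⁻¹) ^ N ∧
      ∀ w ∈ ball (0 : ℂ) 1, ‖w‖ = r → 1 < ‖g w‖ ∧ ‖f w‖ < ‖g w‖ := by
  obtain ⟨C, hC⟩ := hO.bound
  obtain ⟨N, hN⟩ := exists_nat_ge (C + 1)
  have hlog : ∀ᶠ r in 𝓝[<] (1 : ℝ), r ∈ Ioo (1 - Real.exp (-1)) 1 := by
    apply Ioo_mem_nhdsLT
    have := Real.exp_pos (-1)
    linarith
  have hev := hC.and hlog
  obtain ⟨ρ, hρ1, hρ2⟩ := (mem_nhdsLT_iff_exists_Ioo_subset).mp hev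
  have hρ1' : ρ < 1 := hρ1
  refine ⟨N, max ρ (1 / 2), lt_of_lt_of_le (by norm_num) (le_max_right _ _),
    max_lt hρ1' (by norm_num), ?_⟩
  intro r hr hr1
  have hrρ : ρ < r := lt_of_le_of_lt (le_max_left _ _) hr
  have hr12 : 1 / 2 < r := lt_of_le_of_lt (le_max_right _ _) hr
  have hr0 : 0 < r := by linarith
  obtain ⟨hb, hl⟩ := hρ2 ⟨hrρ, hr1⟩
  have h1r : 0 < 1 - r := by linarith
  have hlog1 : 1 ≤ Real.log (1 - r)⁻¹ := by
    rw [Real.le_log_iff_exp_le (inv_pos.mpr h1r)]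
    rw [le_inv_comm₀ (Real.exp_pos _) h1r, ← Real.exp_neg]
    have := hl.1
    linarith
  rw [Real.norm_of_nonneg (TT_nonneg f r), Real.norm_of_nonneg (by linarith)] at hb
  have hsub : sphere (0 : ℂ) r ⊆ ball 0 1 :=
    sphere_subset_closedBall.trans (closedBall_subset_ball hr1)
  have hu : ContinuousOn (fun w => Real.posLog ‖f w‖) (sphere 0 r) :=
    Real.continuous_posLog.comp_continuousOn (hf.continuousOn.mono hsub).norm
  obtain ⟨P, hP, hPu⟩ := exists_harmonic_approx (ε := 1 / 2) hr0 hu (by norm_num)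
  refine ⟨fun w => exp (P w), hP.cexp.differentiableOn, fun w _ => exp_ne_zero _, ?_, ?_⟩
  · rw [Complex.norm_exp]
    have hmean := mean_re hP.differentiableOn hr0 hr1
    have h1 : (P 0).re ≤ TT f r + 1 / 2 := by
      rw [← hmean]
      have h2 : TT f r + 1 / 2 = Real.circleAverage (fun w => Real.posLog ‖f w‖ + 1 / 2) 0 r := by
        rw [Real.circleAverage_fun_add]
        · rw [Real.circleAverage_const]; rfl
        · apply ContinuousOn.circleIntegrable'
          rw [abs_of_pos hr0]; exact hu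
        · apply ContinuousOn.circleIntegrable'
          exact continuousOn_const
      rw [h2]
      apply Real.circleAverage_mono
      · apply ContinuousOn.circleIntegrable'
        exact (Complex.continuous_re.comp hP.continuous).continuousOn
      · apply ContinuousOn.circleIntegrable'
        rw [abs_of_pos hr0]
        exact hu.add continuousOn_const
      · intro w hw
        rw [abs_of_pos hr0] at hw
        exact (hPu w hw).2.le
    have h3 : (P 0).re < N * Real.log (1 - r)⁻¹ := by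
      have h4 : (C + 1) * Real.log (1 - r)⁻¹ ≤ N * Real.log (1 - r)⁻¹ := by gcongr
      nlinarith
    calc Real.exp (P 0).re < Real.exp (N * Real.log (1 - r)⁻¹) := Real.exp_lt_exp.mpr h3
      _ = ((1 - r)⁻¹) ^ N := by
        rw [Real.exp_nat_mul, Real.exp_log (inv_pos.mpr h1r)]
  · intro w _ hwr
    have hw : w ∈ sphere (0 : ℂ) r := by simpa using hwr
    obtain ⟨h1, _⟩ := hPu w hw
    simp only [Complex.norm_exp]
    have hpl : 0 ≤ Real.posLog ‖f w‖ := Real.posLog_nonneg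
    constructor
    · rw [Real.one_lt_exp_iff]; linarith
    · rcases eq_or_lt_of_le (norm_nonneg (f w)) with h | h
      · rw [← h]; exact Real.exp_pos _
      · have h5 : Real.log ‖f w‖ ≤ Real.posLog ‖f w‖ := by
          rw [Real.posLog]; exact le_max_right _ _
        calc ‖f w‖ = Real.exp (Real.log ‖f w‖) := (Real.exp_log h).symm
          _ < Real.exp (P w).re := Real.exp_lt_exp.mpr (by linarith)

end Pool.Agent.H597R2
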