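import Pool.Agent.H597R2.Reals
import Pool.Agent.H597R2.NevA
import Pool.Agent.H597R2.NevB

set_option autoImplicit false

namespace Pool.Agent.H597R2

open Complex Metric Set Filter Topology

section preds

variable {R : Type} [CommRing R]

/-- the conditions at radius `r` -/
def CondR (z n f r : R) : Prop := ∃ g : R, IsUnit g ∧
  (∃ g0 a b, IsConst g0 ∧ z ∣ (g - g0) ∧ a * (1 - r) = 1 ∧ Pw a n b ∧ AbsLt g0 b) ∧
  ∀ α, NSq α (r * r) → ∃ γ φ, IsConst γ ∧ IsConst φ ∧ (z - α) ∣ (g - γ) ∧ (z - α) ∣ (f - φ) ∧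
    AbsLt 1 γ ∧ AbsLt φ γ

/-- the non-admissibility formula -/
def NA (f : R) : Prop := ∃ z n ρ, IsCoord z ∧ IsNatC n ∧ IsPos (1 - ρ) ∧ IsPos ρ ∧
  ∀ r, IsPos (r - ρ) → IsPos (1 - r) → CondR z n f r

end preds

section defs

variable {R : Type} [CommRing R] [FirstOrder.Ring.CompatibleRing R]

theorem D4.CondR : D4 (fun z n f r : R => CondR z n f r) := by
  intro α z n f r hz hn hf hr
  refine FD.ex ((D1.isUnit TD.top).and (FD.and (FD.ex (FD.ex (FD.ex ?_))) (FD.all ?_)))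
  · have hg0 : TD (fun w : Option (Option (Option (Option α))) → R => w (some (some none))) :=
      TD.var _
    have ha : TD (fun w : Option (Option (Option (Option α))) → R => w (some none)) := TD.var _
    have hb : TD (fun w : Option (Option (Option (Option α))) → R => w none) := TD.var _
    have hg : TD (fun w : Option (Option (Option (Option α))) → R => w (some (some (some none)))) :=
      TD.var _
    exact (D1.IsConst hg0).and ((D2.dvd hz.lift.lift.lift.lift (hg.sub hg0)).and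
      ((FD.eq (ha.mul (TD.one.sub hr.lift.lift.lift.lift)) TD.one).and
        ((D3.Pw ha hn.lift.lift.lift.lift hb).and (D2.AbsLt hg0 hb))))
  · refine (D2.NSq TD.top (hr.lift.lift.mul hr.lift.lift)).imp (FD.ex (FD.ex ?_))
    have hγ : TD (fun w : Option (Option (Option (Option α))) → R => w (some none)) := TD.var _
    have hφ : TD (fun w : Option (Option (Option (Option α))) → R => w none) := TD.var _
    have hα : TD (fun w : Option (Option (Option (Option α))) → R => w (some (some none))) :=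
      TD.var _
    have hg : TD (fun w : Option (Option (Option (Option α))) → R => w (some (some (some none)))) :=
      TD.var _
    exact (D1.IsConst hγ).and ((D1.IsConst hφ).and
      ((D2.dvd (hz.lift.lift.lift.lift.sub hα) (hg.sub hγ)).and
        ((D2.dvd (hz.lift.lift.lift.lift.sub hα) (hf.lift.lift.lift.lift.sub hφ)).and
          ((D2.AbsLt TD.one hγ).and (D2.AbsLt hφ hγ)))))

theorem D1.NA : D1 (fun f : R => NA f) := by
  intro α f hf
  refine FD.ex (FD.ex (FD.ex ?_))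
  have hz : TD (fun w : Option (Option (Option α)) → R => w (some (some none))) := TD.var _
  have hn : TD (fun w : Option (Option (Option α)) → R => w (some none)) := TD.var _
  have hρ : TD (fun w : Option (Option (Option α)) → R => w none) := TD.var _
  refine (D1.IsCoord hz).and ((D1.IsNatC hn).and ((D1.IsPos (TD.one.sub hρ)).and
    ((D1.IsPos hρ).and (FD.all ?_))))
  exact (D1.IsPos (TD.top.sub hρ.lift)).imp ((D1.IsPos (TD.one.sub TD.top)).imp
    (D4.CondR hz.lift hn.lift hf.lift.lift.lift.lift TD.top))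

end defs

namespace HolModel

variable {R : Type} [CommRing R] (H : HolModel R)
include H

/-- quotient by a linear factor -/
theorem lin_dvd (f : R) {a : ℂ} (ha : a ∈ ball (0 : ℂ) 1) :
    (H.lft (fun z => z) differentiableOn_id - H.cst a) ∣ (f - H.cst (H.ev f a)) := by
  have hds : DifferentiableOn ℂ (dslope (H.ev f) a) (ball 0 1) :=
    (differentiableOn_dslope (isOpen_ball.mem_nhds ha)).mpr (H.diff f)
  refine ⟨H.lft _ hds, H.inj _ _ fun z hz => ?_⟩
  rw [H.ev_mul _ _ z hz, H.ev_lft _ _ hz, H.ev_sub _ _ hz, H.ev_sub _ _ hz, H.ev_cst _ hz,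
    H.ev_cst _ hz, H.ev_lft _ _ hz]
  have := sub_smul_dslope (H.ev f) a z
  rw [smul_eq_mul] at this
  exact this.symm

theorem isCoord_id : IsCoord (H.lft (fun z => z) differentiableOn_id : R) := by
  constructor
  · intro α hα
    obtain ⟨a, rfl⟩ := (H.isConst_iff α).mp hα
    have h1 : (1 : R) = H.cst 1 := H.cst_one.symm
    rw [h1, H.absLt_cst, H.not_isUnit_iff, norm_one]
    constructor
    · rintro ⟨z, hz, hz0⟩
      rw [H.ev_sub _ _ hz, H.ev_lft _ _ hz, H.ev_cst _ hz, sub_eq_zero] at hz0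
      rw [← hz0]
      simpa using hz
    · intro ha
      have ha' : a ∈ ball (0 : ℂ) 1 := by simpa using ha
      exact ⟨a, ha', by rw [H.ev_sub _ _ ha', H.ev_lft _ _ ha', H.ev_cst _ ha', sub_self]⟩
  · intro α f h
    have h1 : (1 : R) = H.cst 1 := H.cst_one.symm
    rw [h1, H.absLt_iff] at h
    obtain ⟨a, v, rfl, hv, hlt⟩ := h
    rw [← H.cst_inj hv, norm_one] at hlt
    exact ⟨_, H.isConst_cst _, H.lin_dvd f (by simpa using hlt)⟩

/-- the inverse function of a coordinate -/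
theorem coord_inverse {Z : R} (hZ : IsCoord Z) :
    (∀ w ∈ ball (0 : ℂ) 1, ‖H.ev Z w‖ < 1) ∧
    ∃ Ψ : ℂ → ℂ, ContinuousOn Ψ (ball 0 1) ∧ (∀ α ∈ ball (0 : ℂ) 1, Ψ α ∈ ball (0 : ℂ) 1) ∧
      (∀ w ∈ ball (0 : ℂ) 1, Ψ (H.ev Z w) = w) ∧ (∀ α ∈ ball (0 : ℂ) 1, H.ev Z (Ψ α) = α) := by
  obtain ⟨h1, h2⟩ := hZ
  have hone : (1 : R) = H.cst 1 := H.cst_one.symm
  have hr : ∀ a : ℂ, (∃ z ∈ ball (0 : ℂ) 1, H.ev Z z = a) ↔ ‖a‖ < 1 := by
    intro a
    have := h1 (H.cst a) (H.isConst_cst a)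
    rw [hone, H.absLt_cst, H.not_isUnit_iff, norm_one] at this
    rw [← this]
    constructor
    · rintro ⟨z, hz, h⟩
      exact ⟨z, hz, by rw [H.ev_sub _ _ hz, h, H.ev_cst _ hz, sub_self]⟩
    · rintro ⟨z, hz, h⟩
      rw [H.ev_sub _ _ hz, H.ev_cst _ hz, sub_eq_zero] at h
      exact ⟨z, hz, h⟩
  have hmaps : ∀ w ∈ ball (0 : ℂ) 1, ‖H.ev Z w‖ < 1 := fun w hw => (hr _).mp ⟨w, hw, rfl⟩
  have hinj : ∀ w ∈ ball (0 : ℂ) 1, ∀ v ∈ ball (0 : ℂ) 1, H.ev Z w = H.ev Z v → w = v := by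
    intro w hw v hv hwv
    set idR : R := H.lft (fun z => z) differentiableOn_id
    have hα : AbsLt (H.cst (H.ev Z w)) (1 : R) := by
      rw [hone, H.absLt_cst, norm_one]; exact hmaps w hw
    obtain ⟨β, hβ, hd⟩ := h2 (H.cst (H.ev Z w)) idR hα
    obtain ⟨b, rfl⟩ := (H.isConst_iff β).mp hβ
    have e1 := H.dvd_zero_of hd hw (by rw [H.ev_sub _ _ hw, H.ev_cst _ hw, sub_self])
    have e2 := H.dvd_zero_of hd hv (by rw [H.ev_sub _ _ hv, H.ev_cst _ hv, ← hwv, sub_self])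
    rw [H.ev_sub _ _ hw, H.ev_lft _ _ hw, H.ev_cst _ hw] at e1
    rw [H.ev_sub _ _ hv, H.ev_lft _ _ hv, H.ev_cst _ hv] at e2
    linear_combination e1 - e2
  refine ⟨hmaps, ?_⟩
  have hex : ∀ a : ℂ, ∃ w : ℂ, a ∈ ball (0 : ℂ) 1 → w ∈ ball (0 : ℂ) 1 ∧ H.ev Z w = a := by
    intro a
    by_cases ha : a ∈ ball (0 : ℂ) 1
    · obtain ⟨w, hw, hwa⟩ := (hr a).mpr (by simpa using ha)
      exact ⟨w, fun _ => ⟨hw, hwa⟩⟩
    · exact ⟨0, fun h => absurd h ha⟩
  choose Ψ hΨ using hex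
  have hZΨ : ∀ w ∈ ball (0 : ℂ) 1, Ψ (H.ev Z w) = w := by
    intro w hw
    have hm : H.ev Z w ∈ ball (0 : ℂ) 1 := by simpa using hmaps w hw
    exact hinj _ (hΨ _ hm).1 _ hw (hΨ _ hm).2
  refine ⟨Ψ, ?_, fun α hα => (hΨ α hα).1, hZΨ, fun α hα => (hΨ α hα).2⟩
  -- continuity via the open mapping theorem
  have han : AnalyticOnNhd ℂ (H.ev Z) (ball 0 1) := (H.diff Z).analyticOnNhd isOpen_ball
  have hopen : ∀ s ⊆ ball (0 : ℂ) 1, IsOpen s → IsOpen (H.ev Z '' s) := by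
    rcases han.is_constant_or_isOpen (convex_ball (0 : ℂ) 1).isPreconnected with ⟨c, hc⟩ | h
    · exfalso
      have hh : (1 / 2 : ℂ) ∈ ball (0 : ℂ) 1 := by rw [mem_ball_zero_iff]; norm_num
      have := hinj 0 (mem_ball_self one_pos) _ hh
        ((hc 0 (mem_ball_self one_pos)).trans (hc _ hh).symm)
      norm_num at this
    · exact h
  rw [_root_.continuousOn_iff']
  intro t ht
  refine ⟨H.ev Z '' (t ∩ ball 0 1), hopen _ inter_subset_right (ht.inter isOpen_ball), ?_⟩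
  ext a
  constructor
  · rintro ⟨ha1, ha2⟩
    exact ⟨⟨Ψ a, ⟨ha1, (hΨ a ha2).1⟩, (hΨ a ha2).2⟩, ha2⟩
  · rintro ⟨⟨w, ⟨hw1, hw2⟩, rfl⟩, ha2⟩
    refine ⟨?_, ha2⟩
    rw [mem_preimage, hZΨ w hw2]
    exact hw1

theorem na_sound {f : R} (h : NA f) :
    Asymptotics.IsBigO (𝓝[<] (1 : ℝ)) (TT (H.ev f)) (fun r : ℝ => Real.log (1 - r)⁻¹) := by
  obtain ⟨Z, n, ρ, hZ, hn, hρ1, hρ0, hC⟩ := h
  obtain ⟨N, rfl⟩ := (H.isNatC_iff n).mp hn
  obtain ⟨t, ht, rfl⟩ := (H.isPos_iff ρ).mp hρ0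
  have hone : (1 : R) = H.cst 1 := H.cst_one.symm
  have ht1 : t < 1 := by
    rw [hone, ← H.cst_sub] at hρ1
    obtain ⟨s, hs, hs2⟩ := (H.isPos_iff _).mp hρ1
    have := H.cst_inj hs2
    have h2 : 1 - t = s := by exact_mod_cast this
    linarith
  obtain ⟨hmaps, Ψ, hΨc, hΨ1, hZΨ, hΨZ⟩ := H.coord_inverse hZ
  have hb0 : Ψ 0 ∈ ball (0 : ℂ) 1 := hΨ1 0 (mem_ball_self one_pos)
  have hZb0 : H.ev Z (Ψ 0) = 0 := hΨZ 0 (mem_ball_self one_pos)
  apply nonadm_of_formula (H.diff Z) hmaps hΨc hΨ1 hZΨ hΨZ (H.diff f) hb0 (N := N) ht1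
  intro r hr hr1
  have hr0 : 0 < r := ht.trans hr
  obtain ⟨g, hg, ⟨g0, a, b, hg0, hdg, ha, hpw, hlt⟩, hα⟩ := hC (H.cst r)
    ((H.isPos_iff _).mpr ⟨r - t, by linarith, by rw [← H.cst_sub]; push_cast; rfl⟩)
    ((H.isPos_iff _).mpr ⟨1 - r, by linarith, by rw [hone, ← H.cst_sub]; push_cast; rfl⟩)
  refine ⟨H.ev g, H.diff g, (H.isUnit_iff g).mp hg, ?_, ?_⟩
  · obtain ⟨γ0, rfl⟩ := (H.isConst_iff g0).mp hg0
    have e1 := H.dvd_zero_of hdg hb0 hZb0
    rw [H.ev_sub _ _ hb0, H.ev_cst _ hb0, sub_eq_zero] at e1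
    -- a is the constant (1 - r)⁻¹
    have h1r : (1 - r : ℂ) ≠ 0 := by
      have : (1 - r : ℝ) ≠ 0 := by linarith
      exact_mod_cast this
    have ha' : a = H.cst ((1 - r : ℂ)⁻¹) := by
      apply H.inj
      intro z hz
      have := H.ev_mul a (1 - H.cst r) z hz
      rw [ha, H.ev_one z hz, H.ev_sub _ _ hz, H.ev_one z hz, H.ev_cst _ hz] at this
      rw [H.ev_cst _ hz]
      field_simp
      linear_combination -this
    rw [ha'] at hpw
    obtain ⟨u, v, hu, rfl, huv⟩ := (H.absLt_iff _ _).mp hlt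
    rw [← H.cst_inj hu] at huv
    have hv := H.pw_sound hpw
    rw [e1]
    refine lt_of_lt_of_eq huv ?_
    rw [hv, norm_pow, norm_inv]
    have : ‖(1 - r : ℂ)‖ = 1 - r := by
      have h2 : (1 - r : ℂ) = ((1 - r : ℝ) : ℂ) := by push_cast; rfl
      rw [h2, Complex.norm_real, Real.norm_of_nonneg (by linarith)]
    rw [this]
  · intro w hw hwr
    have hns : NSq (H.cst (H.ev Z w)) (H.cst (r : ℂ) * H.cst (r : ℂ)) := by
      rw [← H.cst_mul, ← Complex.ofReal_mul]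
      rw [H.nsq_cst, hwr]
      ring
    obtain ⟨γ, φ, hγ, hφ, hdγ, hdφ, h1γ, hφγ⟩ := hα _ hns
    obtain ⟨γ, rfl⟩ := (H.isConst_iff γ).mp hγ
    obtain ⟨φ, rfl⟩ := (H.isConst_iff φ).mp hφ
    have hz0 : H.ev (Z - H.cst (H.ev Z w)) w = 0 := by
      rw [H.ev_sub _ _ hw, H.ev_cst _ hw, sub_self]
    have e1 := H.dvd_zero_of hdγ hw hz0
    have e2 := H.dvd_zero_of hdφ hw hz0
    rw [H.ev_sub _ _ hw, H.ev_cst _ hw, sub_eq_zero] at e1 e2
    rw [e1, e2]
    rw [hone, H.absLt_cst, norm_one] at h1γ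
    rw [H.absLt_cst] at hφγ
    exact ⟨h1γ, hφγ⟩

theorem na_complete {f : R}
    (hO : Asymptotics.IsBigO (𝓝[<] (1 : ℝ)) (TT (H.ev f)) (fun r : ℝ => Real.log (1 - r)⁻¹)) :
    NA f := by
  obtain ⟨N, ρ, hρ0, hρ1, hC⟩ := formula_of_nonadm (H.diff f) hO
  have hone : (1 : R) = H.cst 1 := H.cst_one.symm
  refine ⟨H.lft (fun z => z) differentiableOn_id, H.cst N, H.cst ρ, H.isCoord_id,
    (H.isNatC_iff _).mpr ⟨N, rfl⟩, ?_, ?_, ?_⟩
  · rw [hone, ← H.cst_sub]
    exact (H.isPos_iff _).mpr ⟨1 - ρ, by linarith, by push_cast; rfl⟩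
  · exact (H.isPos_iff _).mpr ⟨ρ, hρ0, rfl⟩
  · intro r hr hr1
    -- r is a real constant
    obtain ⟨s, hs, hs2⟩ := (H.isPos_iff _).mp hr
    have hr' : r = H.cst ((s + ρ : ℝ) : ℂ) := by
      rw [Complex.ofReal_add, H.cst_add, ← hs2]; ring
    subst hr'
    set t : ℝ := s + ρ with ht
    have ht1 : t < 1 := by
      rw [hone, ← H.cst_sub] at hr1
      obtain ⟨s', hs', hs2'⟩ := (H.isPos_iff _).mp hr1
      have := H.cst_inj hs2'
      have h2 : 1 - t = s' := by exact_mod_cast this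
      linarith
    have htρ : ρ < t := by linarith
    have ht0 : 0 < t := by linarith
    obtain ⟨g, hg, hg0, hgn, hgm⟩ := hC t htρ ht1
    have hG : ∀ w ∈ ball (0 : ℂ) 1, H.ev (H.lft g hg) w = g w := fun w hw => H.ev_lft g hg hw
    refine ⟨H.lft g hg, ?_, ?_, ?_⟩
    · rw [H.isUnit_iff]
      intro z hz
      rw [hG z hz]
      exact hg0 z hz
    · have h0 : (0 : ℂ) ∈ ball (0 : ℂ) 1 := mem_ball_self one_pos
      refine ⟨H.cst (g 0), H.cst (((1 - t)⁻¹ : ℝ) : ℂ), H.cst ((((1 - t)⁻¹ : ℝ) : ℂ) ^ N),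
        H.isConst_cst _, ?_, ?_, H.pw_complete (inv_pos.mpr (by linarith)) N, ?_⟩
      · have := H.lin_dvd (H.lft g hg) h0
        rw [H.cst_zero, sub_zero, hG 0 h0] at this
        exact this
      · rw [hone, ← H.cst_sub, ← H.cst_mul]
        congr 1
        have : (1 - t : ℝ) ≠ 0 := by linarith
        have h2 : ((1 - t)⁻¹ : ℝ) * (1 - t) = 1 := inv_mul_cancel₀ this
        exact_mod_cast h2
      · rw [H.absLt_cst]
        rw [norm_pow, Complex.norm_real, Real.norm_of_nonneg (inv_nonneg.mpr (by linarith))]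
        exact hgn
    · intro α hα
      rw [← H.cst_mul, ← Complex.ofReal_mul] at hα
      obtain ⟨a, rfl, ha⟩ := (H.nsq_iff _ _).mp hα
      have ha2 : ‖a‖ = t := by
        have h2 := H.cst_inj ha
        have h3 : t * t = ‖a‖ ^ 2 := by exact_mod_cast h2
        have h4 : t ^ 2 = ‖a‖ ^ 2 := by rw [← h3]; ring
        have := (pow_left_inj₀ ht0.le (norm_nonneg a) two_ne_zero).mp h4
        exact this.symm
      have hab : a ∈ ball (0 : ℂ) 1 := by rw [mem_ball_zero_iff, ha2]; exact ht1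
      obtain ⟨h1, h2⟩ := hgm a hab ha2
      refine ⟨H.cst (g a), H.cst (H.ev f a), H.isConst_cst _, H.isConst_cst _, ?_,
        H.lin_dvd f hab, ?_, ?_⟩
      · have := H.lin_dvd (H.lft g hg) hab
        rwa [hG a hab] at this
      · rw [hone, H.absLt_cst, norm_one]; exact h1
      · rw [H.absLt_cst]; exact h2

theorem na_iff (f : R) : NA f ↔
    Asymptotics.IsBigO (𝓝[<] (1 : ℝ)) (TT (H.ev f)) (fun r : ℝ => Real.log (1 - r)⁻¹) :=
  ⟨H.na_sound, H.na_complete⟩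

end HolModel

end Pool.Agent.H597R2
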