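import Mathlib

set_option autoImplicit false

namespace Pool.Agent.H597R2

open Complex Metric Set Filter Topology

/-- Local Bloch lemma. -/
theorem bloch_local {f : ℂ → ℂ} {a : ℂ} {r : ℝ} (hr : 0 < r)
    (hf : DifferentiableOn ℂ f (ball a r))
    (hd : 0 < ‖deriv f a‖) (hb : ∀ z ∈ ball a r, ‖deriv f z‖ ≤ 2 * ‖deriv f a‖) :
    ball (f a) (‖deriv f a‖ * r / 32) ⊆ f '' ball a r := by
  set M := ‖deriv f a‖ with hM
  have hf' : DifferentiableOn ℂ (deriv f) (ball a r) := hf.deriv isOpen_ball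
  have hmaps : MapsTo (deriv f) (ball a r) (closedBall (deriv f a) (3 * M)) := by
    intro z hz
    rw [mem_closedBall, dist_eq_norm]
    calc ‖deriv f z - deriv f a‖ ≤ ‖deriv f z‖ + ‖deriv f a‖ := norm_sub_le _ _
      _ ≤ 2 * M + M := add_le_add (hb z hz) le_rfl
      _ = 3 * M := by ring
  set ρ := r / 8 with hρ
  have hρ0 : 0 < ρ := by positivity
  have hρr : ρ < r := by linarith
  have hsub : closedBall a ρ ⊆ ball a r := closedBall_subset_ball hρr
  have hder : ∀ z ∈ closedBall a ρ, ‖deriv f z - deriv f a‖ ≤ 3 * M / 8 := by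
    intro z hz
    have h1 := Complex.dist_le_div_mul_dist_of_mapsTo_ball hf' hmaps (hsub hz)
    rw [dist_eq_norm] at h1
    have h2 : dist z a ≤ ρ := hz
    calc ‖deriv f z - deriv f a‖ ≤ 3 * M / r * dist z a := h1
      _ ≤ 3 * M / r * ρ := by gcongr
      _ = 3 * M / 8 := by rw [hρ]; field_simp
  have hdiffAt : ∀ z ∈ closedBall a ρ, DifferentiableAt ℂ f z := fun z hz =>
    (hf z (hsub hz)).differentiableAt (isOpen_ball.mem_nhds (hsub hz))
  have hlow : ∀ z ∈ sphere a ρ, 5 * M * ρ / 8 ≤ ‖f z - f a‖ := by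
    intro z hz
    have hz' : z ∈ closedBall a ρ := sphere_subset_closedBall hz
    have hza : ‖z - a‖ = ρ := by rw [← dist_eq_norm]; exact hz
    have key := Convex.norm_image_sub_le_of_norm_deriv_le (𝕜 := ℂ)
      (f := fun w => f w - deriv f a * w) (s := closedBall a ρ) (x := a) (y := z) (C := 3 * M / 8)
      (fun w hw => (hdiffAt w hw).sub (by fun_prop))
      (by
        intro w hw
        have : deriv (fun w => f w - deriv f a * w) w = deriv f w - deriv f a := by
          have h1 : HasDerivAt (fun w => f w - deriv f a * w) (deriv f w - deriv f a * 1) w :=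
            (hdiffAt w hw).hasDerivAt.sub ((hasDerivAt_id w).const_mul _)
          simpa using h1.deriv
        rw [this]; exact hder w hw)
      (convex_closedBall a ρ) (mem_closedBall_self hρ0.le) hz'
    have h3 : f z - f a = (f z - deriv f a * z - (f a - deriv f a * a)) + deriv f a * (z - a) := by
      ring
    have h4 : ‖deriv f a * (z - a)‖ = M * ρ := by rw [norm_mul, hza]
    have h5 : ‖deriv f a * (z - a)‖ ≤ ‖f z - f a‖ + ‖f z - deriv f a * z - (f a - deriv f a * a)‖ := by
      have : deriv f a * (z - a) = (f z - f a) - (f z - deriv f a * z - (f a - deriv f a * a)) := by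
        ring
      rw [this]; exact norm_sub_le _ _
    rw [h4] at h5
    rw [hza] at key
    nlinarith
  have hcont : DiffContOnCl ℂ f (ball a ρ) := by
    apply DifferentiableOn.diffContOnCl
    rw [closure_ball a hρ0.ne']
    exact hf.mono hsub
  have hfreq : ∃ᶠ z in 𝓝 a, f z ≠ f a := by
    have h1 : HasDerivAt f (deriv f a) a := (hdiffAt a (mem_closedBall_self hρ0.le)).hasDerivAt
    have h2 : ∀ᶠ z in 𝓝[≠] a, f z ≠ f a := h1.eventually_ne (norm_pos_iff.mp hd)
    exact (h2.frequently).filter_mono nhdsWithin_le_nhds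
  have hmain := hcont.ball_subset_image_closedBall hρ0 hlow hfreq
  intro w hw
  have hw' : w ∈ ball (f a) (5 * M * ρ / 8 / 2) := by
    refine ball_subset_ball ?_ hw
    rw [hρ]; nlinarith
  obtain ⟨z, hz, rfl⟩ := hmain hw'
  exact ⟨z, hsub hz, rfl⟩

/-- Bloch theorem on the closed unit-radius ball, crude constant. -/
theorem bloch_closed {f : ℂ → ℂ} {a : ℂ} {R : ℝ} (hR : 0 < R)
    (hf : DifferentiableOn ℂ f (ball a R)) {r : ℝ} (hr : 0 < r) (hrR : r < R)
    (hd : 0 < ‖deriv f a‖) :
    ∃ w : ℂ, ball w (‖deriv f a‖ * r / 64) ⊆ f '' ball a R := by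
  -- maximise |f'(z)| (r - |z - a|) over the closed ball
  have hsub : closedBall a r ⊆ ball a R := closedBall_subset_ball hrR
  have hf' : DifferentiableOn ℂ (deriv f) (ball a R) := hf.deriv isOpen_ball
  have hc : ContinuousOn (fun z => ‖deriv f z‖ * (r - dist z a)) (closedBall a r) := by
    apply ContinuousOn.mul
    · exact (hf'.continuousOn.mono hsub).norm
    · fun_prop
  obtain ⟨p, hp, hmax⟩ := (isCompact_closedBall a r).exists_isMaxOn
    ⟨a, mem_closedBall_self hr.le⟩ hc
  have hpa : ‖deriv f a‖ * r ≤ ‖deriv f p‖ * (r - dist p a) := by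
    have := hmax (mem_closedBall_self hr.le : a ∈ closedBall a r)
    simpa using this
  have hpos : 0 < ‖deriv f p‖ * (r - dist p a) := lt_of_lt_of_le (by positivity) hpa
  have hpr : 0 < r - dist p a := by
    rcases (mul_pos_iff.mp hpos) with h | h
    · exact h.2
    · exact absurd h.1 (not_lt.mpr (norm_nonneg _))
  have hdp : 0 < ‖deriv f p‖ := by
    rcases (mul_pos_iff.mp hpos) with h | h
    · exact h.1
    · exact absurd h.1 (not_lt.mpr (norm_nonneg _))
  set t := (r - dist p a) / 2 with ht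
  have ht0 : 0 < t := by positivity
  have hsub2 : ball p t ⊆ closedBall a r := by
    intro z hz
    rw [mem_closedBall]
    have : dist z p < t := hz
    have h2 := dist_triangle z p a
    linarith
  refine ⟨f p, ?_⟩
  have hloc := bloch_local (f := f) (a := p) (r := t) ht0 (hf.mono (hsub2.trans hsub)) hdp (by
    intro z hz
    have h1 := hmax (hsub2 hz)
    simp only at h1
    have h2 : t ≤ r - dist z a := by
      have : dist z p < t := hz
      have h2 := dist_triangle z p a
      linarith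
    have h3 : ‖deriv f z‖ * t ≤ ‖deriv f p‖ * (2 * t) := by
      calc ‖deriv f z‖ * t ≤ ‖deriv f z‖ * (r - dist z a) := by gcongr
        _ ≤ ‖deriv f p‖ * (r - dist p a) := h1
        _ = ‖deriv f p‖ * (2 * t) := by rw [ht]; ring
    have h4 : ‖deriv f z‖ * t ≤ (2 * ‖deriv f p‖) * t := by linarith
    exact le_of_mul_le_mul_right h4 ht0)
  refine (ball_subset_ball ?_).trans (hloc.trans (image_mono (hsub2.trans hsub)))
  rw [ht]
  linarith

/-- If the image of the ball contains no unit ball then the derivative is bounded. -/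
theorem deriv_bound_of_no_ball {f : ℂ → ℂ} (hf : DifferentiableOn ℂ f (ball 0 1))
    (hno : ∀ w : ℂ, ¬ ball w 1 ⊆ f '' ball 0 1) {z : ℂ} (hz : z ∈ ball (0 : ℂ) 1) :
    ‖deriv f z‖ ≤ 128 / (1 - ‖z‖) := by
  have hz1 : ‖z‖ < 1 := by simpa using hz
  have h0 : 0 < 1 - ‖z‖ := by linarith
  by_contra hcon
  push Not at hcon
  have hd : 0 < ‖deriv f z‖ := lt_of_le_of_lt (by positivity) hcon
  have hsub : ball z (1 - ‖z‖) ⊆ ball 0 1 := by
    intro w hw
    rw [mem_ball_zero_iff]
    have : ‖w - z‖ < 1 - ‖z‖ := by rw [← dist_eq_norm]; exact hw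
    have h2 : ‖w‖ ≤ ‖w - z‖ + ‖z‖ := by
      calc ‖w‖ = ‖(w - z) + z‖ := by ring_nf
        _ ≤ _ := norm_add_le _ _
    linarith
  obtain ⟨w, hw⟩ := bloch_closed (f := f) (a := z) (R := 1 - ‖z‖) h0 (hf.mono hsub)
    (r := (1 - ‖z‖) / 2) (by positivity) (by linarith) hd
  refine hno w ((ball_subset_ball ?_).trans (hw.trans (image_mono hsub)))
  rw [div_lt_iff₀ h0] at hcon
  have : ‖deriv f z‖ * ((1 - ‖z‖) / 2) / 64 = ‖deriv f z‖ * (1 - ‖z‖) / 128 := by ring
  rw [this, le_div_iff₀ (by norm_num)]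
  linarith

/-- growth of functions whose image contains no unit ball -/
theorem growth_of_no_ball {f : ℂ → ℂ} (hf : DifferentiableOn ℂ f (ball 0 1))
    (hno : ∀ w : ℂ, ¬ ball w 1 ⊆ f '' ball 0 1) {z : ℂ} (hz : z ∈ ball (0 : ℂ) 1) :
    ‖f z‖ ≤ ‖f 0‖ + 128 / (1 - ‖z‖) := by
  have hz1 : ‖z‖ < 1 := by simpa using hz
  have h0 : 0 < 1 - ‖z‖ := by linarith
  have hsub : closedBall (0 : ℂ) ‖z‖ ⊆ ball 0 1 := closedBall_subset_ball hz1
  have key := Convex.norm_image_sub_le_of_norm_deriv_le (𝕜 := ℂ)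
      (f := f) (s := closedBall 0 ‖z‖) (x := 0) (y := z) (C := 128 / (1 - ‖z‖))
      (fun w hw => (hf w (hsub hw)).differentiableAt (isOpen_ball.mem_nhds (hsub hw)))
      (by
        intro w hw
        refine (deriv_bound_of_no_ball hf hno (hsub hw)).trans ?_
        have : ‖w‖ ≤ ‖z‖ := by simpa using hw
        gcongr)
      (convex_closedBall _ _) (mem_closedBall_self (norm_nonneg _)) (by simp)
  have h2 : ‖f z‖ ≤ ‖f z - f 0‖ + ‖f 0‖ := by
    calc ‖f z‖ = ‖(f z - f 0) + f 0‖ := by ring_nf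
      _ ≤ _ := norm_add_le _ _
  have h3 : 128 / (1 - ‖z‖) * ‖z - 0‖ ≤ 128 / (1 - ‖z‖) * 1 := by
    rw [sub_zero]; gcongr
  linarith

end Pool.Agent.H597R2
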