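import Mathlib

set_option autoImplicit false

namespace Pool.Agent.H597R2

open FirstOrder FirstOrder.Language

section

variable {R : Type} [CommRing R] [FirstOrder.Ring.CompatibleRing R]

/-- term-definable functions -/
def TD {α : Type} (t : (α → R) → R) : Prop :=
  ∃ s : Language.ring.Term α, ∀ v, s.realize v = t v

/-- formula-definable predicates -/
def FD {α : Type} (P : (α → R) → Prop) : Prop :=
  ∃ φ : Language.ring.Formula α, ∀ v : α → R, φ.Realize v ↔ P v

variable {α : Type}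

theorem TD.var (a : α) : TD (fun v : α → R => v a) := ⟨Term.var a, fun _ => rfl⟩

theorem TD.zero : TD (fun _ : α → R => (0 : R)) := ⟨0, fun v => by simp⟩

theorem TD.one : TD (fun _ : α → R => (1 : R)) := ⟨1, fun v => by simp⟩

theorem TD.add {t s : (α → R) → R} (ht : TD t) (hs : TD s) : TD (fun v => t v + s v) := by
  obtain ⟨a, ha⟩ := ht
  obtain ⟨b, hb⟩ := hs
  exact ⟨a + b, fun v => by simp [ha, hb]⟩

theorem TD.mul {t s : (α → R) → R} (ht : TD t) (hs : TD s) : TD (fun v => t v * s v) := by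
  obtain ⟨a, ha⟩ := ht
  obtain ⟨b, hb⟩ := hs
  exact ⟨a * b, fun v => by simp [ha, hb]⟩

theorem TD.neg {t : (α → R) → R} (ht : TD t) : TD (fun v => - t v) := by
  obtain ⟨a, ha⟩ := ht
  exact ⟨-a, fun v => by simp [ha]⟩

theorem TD.sub {t s : (α → R) → R} (ht : TD t) (hs : TD s) : TD (fun v => t v - s v) := by
  have := ht.add hs.neg
  simpa [sub_eq_add_neg] using this

theorem TD.lift {t : (α → R) → R} (ht : TD t) :
    TD (fun w : Option α → R => t (fun a => w (some a))) := by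
  obtain ⟨a, ha⟩ := ht
  refine ⟨a.relabel some, fun v => ?_⟩
  rw [Term.realize_relabel, ha]
  rfl

theorem TD.top : TD (fun w : Option α → R => w none) := TD.var none

theorem FD.congr {P Q : (α → R) → Prop} (h : FD P) (hPQ : ∀ v, P v ↔ Q v) : FD Q := by
  obtain ⟨φ, hφ⟩ := h
  exact ⟨φ, fun v => (hφ v).trans (hPQ v)⟩

theorem FD.eq {t s : (α → R) → R} (ht : TD t) (hs : TD s) : FD (fun v => t v = s v) := by
  obtain ⟨a, ha⟩ := ht
  obtain ⟨b, hb⟩ := hs
  exact ⟨Term.equal a b, fun v => by simp [Formula.realize_equal, ha, hb]⟩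

theorem FD.not {P : (α → R) → Prop} (h : FD P) : FD (fun v => ¬ P v) := by
  obtain ⟨φ, hφ⟩ := h
  exact ⟨φ.not, fun v => by rw [Formula.realize_not, hφ]⟩

theorem FD.and {P Q : (α → R) → Prop} (h : FD P) (h' : FD Q) : FD (fun v => P v ∧ Q v) := by
  obtain ⟨φ, hφ⟩ := h
  obtain ⟨ψ, hψ⟩ := h'
  exact ⟨φ ⊓ ψ, fun v => by rw [Formula.realize_inf, hφ, hψ]⟩

theorem FD.or {P Q : (α → R) → Prop} (h : FD P) (h' : FD Q) : FD (fun v => P v ∨ Q v) := by
  obtain ⟨φ, hφ⟩ := h
  obtain ⟨ψ, hψ⟩ := h'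
  exact ⟨φ ⊔ ψ, fun v => by rw [Formula.realize_sup, hφ, hψ]⟩

theorem FD.imp {P Q : (α → R) → Prop} (h : FD P) (h' : FD Q) : FD (fun v => P v → Q v) := by
  obtain ⟨φ, hφ⟩ := h
  obtain ⟨ψ, hψ⟩ := h'
  exact ⟨φ.imp ψ, fun v => by rw [Formula.realize_imp, hφ, hψ]⟩

theorem FD.iff {P Q : (α → R) → Prop} (h : FD P) (h' : FD Q) : FD (fun v => P v ↔ Q v) :=
  ((h.imp h').and (h'.imp h)).congr (fun _ => ⟨fun x => ⟨x.1, x.2⟩, fun x => ⟨x.1, x.2⟩⟩)

theorem FD.ne {t s : (α → R) → R} (ht : TD t) (hs : TD s) : FD (fun v => t v ≠ s v) :=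
  (FD.eq ht hs).not

theorem FD.ex {P : (α → R) → R → Prop}
    (h : FD (fun w : Option α → R => P (fun a => w (some a)) (w none))) :
    FD (fun v => ∃ x, P v x) := by
  obtain ⟨φ, hφ⟩ := h
  refine ⟨Formula.iExs Unit (φ.relabel (fun o : Option α => o.elim (Sum.inr ()) Sum.inl)), ?_⟩
  intro v
  rw [Formula.realize_iExs]
  constructor
  · rintro ⟨i, hi⟩
    rw [Formula.realize_relabel, hφ] at hi
    exact ⟨i (), hi⟩
  · rintro ⟨x, hx⟩
    refine ⟨fun _ => x, ?_⟩
    rw [Formula.realize_relabel, hφ]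
    exact hx

theorem FD.all {P : (α → R) → R → Prop}
    (h : FD (fun w : Option α → R => P (fun a => w (some a)) (w none))) :
    FD (fun v => ∀ x, P v x) := by
  have h1 : FD (fun v => ∃ x, ¬ P v x) := FD.ex h.not
  refine h1.not.congr (fun v => ?_)
  push Not
  rfl

/-- definable unary predicate -/
def D1 (P : R → Prop) : Prop := ∀ {α : Type} {t : (α → R) → R}, TD t → FD (fun v => P (t v))

/-- definable binary predicate -/
def D2 (P : R → R → Prop) : Prop :=
  ∀ {α : Type} {t s : (α → R) → R}, TD t → TD s → FD (fun v => P (t v) (s v))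

/-- definable ternary predicate -/
def D3 (P : R → R → R → Prop) : Prop :=
  ∀ {α : Type} {t s r : (α → R) → R}, TD t → TD s → TD r → FD (fun v => P (t v) (s v) (r v))

/-- definable quaternary predicate -/
def D4 (P : R → R → R → R → Prop) : Prop :=
  ∀ {α : Type} {t s r q : (α → R) → R}, TD t → TD s → TD r → TD q →
    FD (fun v => P (t v) (s v) (r v) (q v))

theorem D2.dvd : D2 (fun a b : R => a ∣ b) := by
  intro α t s ht hs
  have : FD (fun v : α → R => ∃ x, s v = t v * x) :=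
    FD.ex (FD.eq hs.lift (ht.lift.mul TD.top))
  exact this

theorem D1.isUnit : D1 (fun a : R => IsUnit a) := by
  intro α t ht
  exact (D2.dvd ht TD.one).congr (fun v => isUnit_iff_dvd_one.symm)

/-- A `D1` predicate gives a one-variable formula. -/
theorem D1.formula {P : R → Prop} (h : D1 P) :
    ∃ φ : Language.ring.Formula (Fin 1), ∀ f : R, φ.Realize (fun _ => f) ↔ P f := by
  obtain ⟨φ, hφ⟩ := h (α := Fin 1) (TD.var 0)
  exact ⟨φ, fun f => hφ _⟩

end

end Pool.Agent.H597R2
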