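import Pool.Agent.H597R2.Special
import Pool.Agent.H597R2.Logic

set_option autoImplicit false

namespace Pool.Agent.H597R2

open Complex Metric Set Filter Topology

/-- A ring identified with the ring of holomorphic functions on the unit disc. -/
structure HolModel (R : Type) [CommRing R] where
  ev : R → ℂ → ℂ
  diff : ∀ a, DifferentiableOn ℂ (ev a) (ball 0 1)
  surj : ∀ g : ℂ → ℂ, DifferentiableOn ℂ g (ball 0 1) → ∃ a, ∀ z ∈ ball (0 : ℂ) 1, ev a z = g z
  inj : ∀ a b, (∀ z ∈ ball (0 : ℂ) 1, ev a z = ev b z) → a = b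
  ev_add : ∀ a b, ∀ z ∈ ball (0 : ℂ) 1, ev (a + b) z = ev a z + ev b z
  ev_mul : ∀ a b, ∀ z ∈ ball (0 : ℂ) 1, ev (a * b) z = ev a z * ev b z
  ev_one : ∀ z ∈ ball (0 : ℂ) 1, ev 1 z = 1

namespace HolModel

variable {R : Type} [CommRing R] (H : HolModel R)
include H

theorem ev_zero {z : ℂ} (hz : z ∈ ball (0 : ℂ) 1) : H.ev 0 z = 0 := by
  have := H.ev_add 0 0 z hz
  rw [add_zero] at this
  linear_combination -this

theorem ev_neg (a : R) {z : ℂ} (hz : z ∈ ball (0 : ℂ) 1) : H.ev (-a) z = - H.ev a z := by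
  have := H.ev_add a (-a) z hz
  rw [add_neg_cancel, H.ev_zero hz] at this
  linear_combination -this

theorem ev_sub (a b : R) {z : ℂ} (hz : z ∈ ball (0 : ℂ) 1) :
    H.ev (a - b) z = H.ev a z - H.ev b z := by
  rw [sub_eq_add_neg, H.ev_add _ _ z hz, H.ev_neg b hz]; ring

theorem ev_nat (n : ℕ) {z : ℂ} (hz : z ∈ ball (0 : ℂ) 1) : H.ev (n : R) z = n := by
  induction n with
  | zero => simpa using H.ev_zero hz
  | succ n ih => push_cast; rw [H.ev_add _ _ z hz, ih, H.ev_one z hz]

theorem ev_int (n : ℤ) {z : ℂ} (hz : z ∈ ball (0 : ℂ) 1) : H.ev (n : R) z = n := by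
  cases n with
  | ofNat n => simpa using H.ev_nat n hz
  | negSucc n =>
    simp only [Int.cast_negSucc]
    rw [H.ev_neg _ hz, H.ev_nat _ hz]

/-- lift of a holomorphic function -/
noncomputable def lft (g : ℂ → ℂ) (hg : DifferentiableOn ℂ g (ball 0 1)) : R :=
  Classical.choose (H.surj g hg)

theorem ev_lft (g : ℂ → ℂ) (hg : DifferentiableOn ℂ g (ball 0 1)) {z : ℂ}
    (hz : z ∈ ball (0 : ℂ) 1) : H.ev (H.lft g hg) z = g z :=
  Classical.choose_spec (H.surj g hg) z hz

/-- constants -/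
noncomputable def cst (c : ℂ) : R := H.lft (fun _ => c) (differentiableOn_const c)

theorem ev_cst (c : ℂ) {z : ℂ} (hz : z ∈ ball (0 : ℂ) 1) : H.ev (H.cst c) z = c :=
  H.ev_lft _ _ hz

theorem cst_inj {c d : ℂ} (h : H.cst c = H.cst d) : c = d := by
  have h0 : (0 : ℂ) ∈ ball (0 : ℂ) 1 := mem_ball_self one_pos
  rw [← H.ev_cst c h0, h, H.ev_cst d h0]

theorem cst_add (c d : ℂ) : H.cst (c + d) = H.cst c + H.cst d := by
  apply H.inj; intro z hz
  rw [H.ev_add _ _ z hz, H.ev_cst _ hz, H.ev_cst _ hz, H.ev_cst _ hz]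

theorem cst_mul (c d : ℂ) : H.cst (c * d) = H.cst c * H.cst d := by
  apply H.inj; intro z hz
  rw [H.ev_mul _ _ z hz, H.ev_cst _ hz, H.ev_cst _ hz, H.ev_cst _ hz]

theorem cst_sub (c d : ℂ) : H.cst (c - d) = H.cst c - H.cst d := by
  apply H.inj; intro z hz
  rw [H.ev_sub _ _ hz, H.ev_cst _ hz, H.ev_cst _ hz, H.ev_cst _ hz]

theorem cst_neg (c : ℂ) : H.cst (-c) = -H.cst c := by
  apply H.inj; intro z hz
  rw [H.ev_neg _ hz, H.ev_cst _ hz, H.ev_cst _ hz]

theorem cst_one : H.cst 1 = 1 := by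
  apply H.inj; intro z hz
  rw [H.ev_one z hz, H.ev_cst _ hz]

theorem cst_zero : H.cst 0 = 0 := by
  apply H.inj; intro z hz
  rw [H.ev_zero hz, H.ev_cst _ hz]

theorem cst_int (n : ℤ) : H.cst n = n := by
  apply H.inj; intro z hz
  rw [H.ev_int n hz, H.ev_cst _ hz]

theorem isUnit_iff (a : R) : IsUnit a ↔ ∀ z ∈ ball (0 : ℂ) 1, H.ev a z ≠ 0 := by
  constructor
  · intro h z hz h0
    obtain ⟨b, hb⟩ := h.exists_right_inv
    have := H.ev_mul a b z hz
    rw [hb, H.ev_one z hz, h0, zero_mul] at this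
    exact one_ne_zero this
  · intro h
    have hd : DifferentiableOn ℂ (fun z => (H.ev a z)⁻¹) (ball 0 1) := (H.diff a).inv h
    refine IsUnit.of_mul_eq_one (H.lft _ hd) ?_
    apply H.inj
    intro z hz
    rw [H.ev_mul _ _ z hz, H.ev_lft _ _ hz, H.ev_one z hz, mul_inv_cancel₀ (h z hz)]

theorem not_isUnit_iff (a : R) : ¬ IsUnit a ↔ ∃ z ∈ ball (0 : ℂ) 1, H.ev a z = 0 := by
  rw [H.isUnit_iff]; push Not; rfl

theorem dvd_zero_of {a b : R} (h : a ∣ b) {z : ℂ} (hz : z ∈ ball (0 : ℂ) 1)
    (ha : H.ev a z = 0) : H.ev b z = 0 := by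
  obtain ⟨q, rfl⟩ := h
  rw [H.ev_mul _ _ z hz, ha, zero_mul]

/-- composition with an entire function -/
theorem comp_dvd (x : R) {F : ℂ → ℂ} (hF : Differentiable ℂ F) (n : ℂ) (hn : F n = 0) {y : R}
    (hy : ∀ z ∈ ball (0 : ℂ) 1, H.ev y z = F (H.ev x z)) : (x - H.cst n) ∣ y := by
  have hds : Differentiable ℂ (dslope F n) := by
    rw [← differentiableOn_univ]
    exact (differentiableOn_dslope univ_mem).mpr hF.differentiableOn
  refine ⟨H.lft (fun z => dslope F n (H.ev x z)) (hds.comp_differentiableOn (H.diff x)), ?_⟩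
  apply H.inj
  intro z hz
  rw [H.ev_mul _ _ z hz, H.ev_lft _ _ hz, H.ev_sub _ _ hz, H.ev_cst _ hz, hy z hz]
  have := sub_smul_dslope F n (H.ev x z)
  rw [hn, sub_zero, smul_eq_mul] at this
  exact this.symm

end HolModel

section preds

variable {R : Type} [CommRing R]

/-- functions omitting `0` and `1` (plus these two constants) -/
def Omega (c : R) : Prop := c = 0 ∨ c = 1 ∨ (IsUnit c ∧ IsUnit (c - 1))

def Sset (x y c : R) : Prop := Omega c ∧ (x - c) ∣ y

def Ind (x y : R) : Prop := Sset x y 0 ∧ ∀ c, Sset x y c → Sset x y (c + 1) ∧ Sset x y (c - 1)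

def IsZ (f : R) : Prop := ∀ x y, Ind x y → Sset x y f

def IsConst (f : R) : Prop :=
  ∀ p q r i : R, IsZ p → IsZ q → IsZ r → r ≠ 0 → i * i = -1 →
    (r * f - (p + q * i) = 0 ∨ IsUnit (r * f - (p + q * i)))

end preds

section defs

variable {R : Type} [CommRing R] [FirstOrder.Ring.CompatibleRing R]

theorem D1.Omega : D1 (fun c : R => Omega c) := by
  intro α t ht
  exact (FD.eq ht TD.zero).or ((FD.eq ht TD.one).or ((D1.isUnit ht).and (D1.isUnit (ht.sub TD.one))))

theorem D3.Sset : D3 (fun x y c : R => Sset x y c) := by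
  intro α x y c hx hy hc
  exact (D1.Omega hc).and (D2.dvd (hx.sub hc) hy)

theorem D2.Ind : D2 (fun x y : R => Ind x y) := by
  intro α x y hx hy
  refine (D3.Sset hx hy TD.zero).and (FD.all ?_)
  exact (D3.Sset hx.lift hy.lift TD.top).imp
    ((D3.Sset hx.lift hy.lift (TD.top.add TD.one)).and
      (D3.Sset hx.lift hy.lift (TD.top.sub TD.one)))

theorem D1.IsZ : D1 (fun f : R => IsZ f) := by
  intro α f hf
  refine FD.all (FD.all ?_)
  exact (D2.Ind TD.top.lift TD.top).imp (D3.Sset TD.top.lift TD.top hf.lift.lift)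

theorem D1.IsConst : D1 (fun f : R => IsConst f) := by
  intro α f hf
  refine FD.all (FD.all (FD.all (FD.all ?_)))
  have hp : TD (fun w : Option (Option (Option (Option α))) → R => w (some (some (some none)))) :=
    TD.var _
  have hq : TD (fun w : Option (Option (Option (Option α))) → R => w (some (some none))) :=
    TD.var _
  have hr : TD (fun w : Option (Option (Option (Option α))) → R => w (some none)) :=
    TD.var _
  have hi : TD (fun w : Option (Option (Option (Option α))) → R => w none) :=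
    TD.var _
  have hf' := hf.lift.lift.lift.lift
  have ht := (hr.mul hf').sub (hp.add (hq.mul hi))
  exact (D1.IsZ hp).imp ((D1.IsZ hq).imp ((D1.IsZ hr).imp ((FD.ne hr TD.zero).imp
    ((FD.eq (hi.mul hi) TD.one.neg).imp ((FD.eq ht TD.zero).or (D1.isUnit ht))))))

end defs

namespace HolModel

variable {R : Type} [CommRing R] (H : HolModel R)
include H

theorem omega_growth {c : R} (hc : Omega c) :
    ∃ A : ℝ, ∀ z ∈ ball (0 : ℂ) 1,
      ‖H.ev c z‖ ≤ Real.exp (7 * Real.exp (A + 512 / (1 - ‖z‖))) := by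
  rcases hc with h | h | ⟨h0, h1⟩
  · refine ⟨0, fun z hz => ?_⟩
    rw [h, H.ev_zero hz, norm_zero]; positivity
  · refine ⟨0, fun z hz => ?_⟩
    rw [h, H.ev_one z hz, norm_one]
    apply Real.one_le_exp
    positivity
  · apply growth_omit (H.diff c)
    · exact (H.isUnit_iff c).mp h0
    · intro z hz h2
      apply (H.isUnit_iff (c - 1)).mp h1 z hz
      rw [H.ev_sub _ _ hz, H.ev_one z hz, h2, sub_self]

theorem omega_int (n : ℤ) : Omega (n : R) := by
  by_cases h0 : n = 0
  · left; simp [h0]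
  by_cases h1 : n = 1
  · right; left; simp [h1]
  right; right
  constructor
  · rw [H.isUnit_iff]
    intro z hz
    rw [H.ev_int n hz]
    exact_mod_cast h0
  · rw [H.isUnit_iff]
    intro z hz
    rw [H.ev_sub _ _ hz, H.ev_int n hz, H.ev_one z hz, sub_ne_zero]
    exact_mod_cast h1

theorem isZ_iff (f : R) : IsZ f ↔ ∃ n : ℤ, f = n := by
  constructor
  · intro hf
    obtain ⟨x, hx, hspec⟩ := exists_special
    set X : R := H.lft x hx with hX
    have hy : DifferentiableOn ℂ (fun z => Complex.sin (Real.pi * x z)) (ball 0 1) :=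
      (hx.const_mul _).csin
    set Y : R := H.lft _ hy with hY
    have hS : ∀ c : R, Sset X Y c ↔ ∃ n : ℤ, c = n := by
      intro c
      constructor
      · rintro ⟨hom, hdvd⟩
        obtain ⟨n, hn⟩ := hspec (H.ev c) (H.diff c) (H.omega_growth hom) (by
          intro b hb hxb
          have h1 : H.ev (X - c) b = 0 := by
            rw [H.ev_sub _ _ hb, H.ev_lft _ _ hb, hxb, sub_self]
          have h2 := H.dvd_zero_of hdvd hb h1
          rw [H.ev_lft _ _ hb] at h2
          rw [Complex.sin_eq_zero_iff] at h2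
          obtain ⟨k, hk⟩ := h2
          refine ⟨k, ?_⟩
          have hpi : (Real.pi : ℂ) ≠ 0 := by exact_mod_cast Real.pi_ne_zero
          rw [← hxb]
          have h3 : (Real.pi : ℂ) * (x b - k) = 0 := by linear_combination hk
          rcases mul_eq_zero.mp h3 with h | h
          · exact absurd h hpi
          · exact sub_eq_zero.mp h)
        refine ⟨n, H.inj _ _ fun z hz => ?_⟩
        rw [hn z hz, H.ev_int n hz]
      · rintro ⟨n, rfl⟩
        refine ⟨H.omega_int n, ?_⟩
        rw [← H.cst_int n]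
        apply H.comp_dvd X (F := fun w => Complex.sin (Real.pi * w)) (by fun_prop)
        · rw [Complex.sin_eq_zero_iff]
          exact ⟨n, by ring⟩
        · intro z hz
          rw [H.ev_lft _ _ hz, H.ev_lft _ _ hz]
    have hInd : Ind X Y := by
      refine ⟨(hS 0).mpr ⟨0, by simp⟩, ?_⟩
      intro c hc
      obtain ⟨n, rfl⟩ := (hS c).mp hc
      exact ⟨(hS _).mpr ⟨n + 1, by push_cast; ring⟩, (hS _).mpr ⟨n - 1, by push_cast; ring⟩⟩
    exact (hS f).mp (hf X Y hInd)
  · rintro ⟨n, rfl⟩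
    intro x y hxy
    induction n using Int.induction_on with
    | zero => simpa using hxy.1
    | succ k ih =>
      have := (hxy.2 _ ih).1
      push_cast at this ⊢
      exact this
    | pred k ih =>
      have := (hxy.2 _ ih).2
      push_cast at this ⊢
      exact this

theorem sqrt_neg_one {i : R} (hi : i * i = -1) :
    i = H.cst I ∨ i = H.cst (-I) := by
  have h1 : ∀ z ∈ ball (0 : ℂ) 1, H.ev i z = I ∨ H.ev i z = -I := by
    intro z hz
    have := H.ev_mul i i z hz
    rw [hi, H.ev_neg _ hz, H.ev_one z hz] at this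
    have h2 : (H.ev i z - I) * (H.ev i z + I) = 0 := by
      have hI := Complex.I_mul_I
      linear_combination -this - hI
    rcases mul_eq_zero.mp h2 with h | h
    · left; exact sub_eq_zero.mp h
    · right; exact eq_neg_of_add_eq_zero_left h
  have hdisc : IsDiscrete ({I, -I} : Set ℂ) := (Set.toFinite _).isDiscrete
  have hconst : ∀ z ∈ ball (0 : ℂ) 1, H.ev i z = H.ev i 0 := by
    intro z hz
    exact (convex_ball (0 : ℂ) 1).isPreconnected.constant_of_mapsTo hdisc (H.diff i).continuousOn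
      (fun w hw => by simpa using h1 w hw) hz (mem_ball_self one_pos)
  rcases h1 0 (mem_ball_self one_pos) with h | h
  · left
    apply H.inj
    intro z hz
    rw [hconst z hz, h, H.ev_cst _ hz]
  · right
    apply H.inj
    intro z hz
    rw [hconst z hz, h, H.ev_cst _ hz]

omit [CommRing R] H in
theorem exists_gaussian {U : Set ℂ} (hU : IsOpen U) (hne : U.Nonempty) :
    ∃ p q r : ℤ, r ≠ 0 ∧ ((p : ℂ) + q * I) / r ∈ U := by
  obtain ⟨w, hw⟩ := hne
  obtain ⟨ε, hε, hball⟩ := Metric.isOpen_iff.mp hU w hw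
  obtain ⟨r, hr⟩ := exists_nat_gt (1 / ε)
  have hr0 : (0 : ℝ) < r := lt_trans (by positivity) hr
  refine ⟨round (r * w.re), round (r * w.im), r, by exact_mod_cast hr0.ne', hball ?_⟩
  rw [mem_ball, dist_eq_norm]
  have hrC : (r : ℂ) ≠ 0 := by exact_mod_cast hr0.ne'
  have e : ((round (r * w.re) : ℤ) + (round (r * w.im) : ℤ) * I) / ((r : ℤ) : ℂ) - w
      = (((round (r * w.re) : ℤ) : ℂ) + (round (r * w.im) : ℤ) * I - r * w) / r := by
    push_cast
    field_simp
  rw [e, norm_div]
  have e2 : ‖(r : ℂ)‖ = r := by simp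
  rw [e2, div_lt_iff₀ hr0]
  have h1 : |(round (r * w.re) : ℝ) - r * w.re| ≤ 1 / 2 := by
    rw [abs_sub_comm]; exact abs_sub_round _
  have h2 : |(round (r * w.im) : ℝ) - r * w.im| ≤ 1 / 2 := by
    rw [abs_sub_comm]; exact abs_sub_round _
  have h3 := Complex.norm_le_abs_re_add_abs_im
    (((round (r * w.re) : ℤ) : ℂ) + (round (r * w.im) : ℤ) * I - r * w)
  have h4 : ((((round (r * w.re) : ℤ) : ℂ) + (round (r * w.im) : ℤ) * I - r * w)).re
      = (round (r * w.re) : ℝ) - r * w.re := by simp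
  have h5 : ((((round (r * w.re) : ℤ) : ℂ) + (round (r * w.im) : ℤ) * I - r * w)).im
      = (round (r * w.im) : ℝ) - r * w.im := by simp
  rw [h4, h5] at h3
  rw [div_lt_iff₀ hε] at hr
  linarith

theorem isConst_iff (f : R) : IsConst f ↔ ∃ c : ℂ, f = H.cst c := by
  constructor
  · intro hf
    have han : AnalyticOnNhd ℂ (H.ev f) (ball 0 1) := (H.diff f).analyticOnNhd isOpen_ball
    rcases han.is_constant_or_isOpen (convex_ball (0 : ℂ) 1).isPreconnected with ⟨w, hw⟩ | hopen
    · exact ⟨w, H.inj _ _ fun z hz => by rw [hw z hz, H.ev_cst _ hz]⟩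
    · exfalso
      obtain ⟨p, q, r, hr, z, hz, hzf⟩ := exists_gaussian
        (hopen (ball 0 1) subset_rfl isOpen_ball) ⟨_, mem_image_of_mem _ (mem_ball_self one_pos)⟩
      have hrC : (r : ℂ) ≠ 0 := by exact_mod_cast hr
      have hval : ∀ w ∈ ball (0 : ℂ) 1, H.ev ((r : R) * f - ((p : R) + q * H.cst I)) w
          = r * H.ev f w - (p + q * I) := by
        intro w hw
        rw [H.ev_sub _ _ hw, H.ev_mul _ _ w hw, H.ev_add _ _ w hw, H.ev_mul _ _ w hw,
          H.ev_int _ hw, H.ev_int _ hw, H.ev_int _ hw, H.ev_cst _ hw]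
      have hz0 : (r : ℂ) * H.ev f z - (p + q * I) = 0 := by
        rw [hzf]; field_simp; ring
      rcases hf p q r (H.cst I) ((H.isZ_iff _).mpr ⟨p, rfl⟩) ((H.isZ_iff _).mpr ⟨q, rfl⟩)
        ((H.isZ_iff _).mpr ⟨r, rfl⟩) (by
          intro h
          have := H.ev_int r (mem_ball_self one_pos)
          rw [h, H.ev_zero (mem_ball_self one_pos)] at this
          exact hrC this.symm)
        (by rw [← H.cst_mul, I_mul_I, H.cst_neg, H.cst_one]) with h | h
      · -- f is constant, contradiction with openness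
        have hc : ∀ w ∈ ball (0 : ℂ) 1, H.ev f w = ((p : ℂ) + q * I) / r := by
          intro w hw
          have h1 := hval w hw
          rw [h, H.ev_zero hw] at h1
          field_simp
          linear_combination -h1
        have hop := hopen (ball 0 1) subset_rfl isOpen_ball
        have himg : H.ev f '' ball 0 1 = {((p : ℂ) + q * I) / r} := by
          ext w
          constructor
          · rintro ⟨v, hv, rfl⟩
            exact hc v hv
          · rintro rfl
            exact ⟨0, mem_ball_self one_pos, hc 0 (mem_ball_self one_pos)⟩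
        rw [himg] at hop
        exact not_isOpen_singleton _ hop
      · exact (H.isUnit_iff _).mp h z hz (by rw [hval z hz, hz0])
  · rintro ⟨c, rfl⟩
    intro p q r i hp hq hr hr0 hi
    obtain ⟨p, rfl⟩ := (H.isZ_iff _).mp hp
    obtain ⟨q, rfl⟩ := (H.isZ_iff _).mp hq
    obtain ⟨r, rfl⟩ := (H.isZ_iff _).mp hr
    have key : ∃ d : ℂ, (r : R) * H.cst c - ((p : R) + q * i) = H.cst d := by
      rcases H.sqrt_neg_one hi with h | h
      · refine ⟨r * c - (p + q * I), ?_⟩
        rw [h, H.cst_sub, H.cst_mul, H.cst_add, H.cst_mul, H.cst_int, H.cst_int, H.cst_int]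
      · refine ⟨r * c - (p + q * (-I)), ?_⟩
        rw [h, H.cst_sub, H.cst_mul, H.cst_add, H.cst_mul, H.cst_int, H.cst_int, H.cst_int]
    obtain ⟨d, hd⟩ := key
    rw [hd]
    by_cases h : d = 0
    · left; rw [h, H.cst_zero]
    · right
      rw [H.isUnit_iff]
      intro z hz
      rw [H.ev_cst _ hz]
      exact h

end HolModel

end Pool.Agent.H597R2
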