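import Pool.Agent.H597R2.Omit

set_option autoImplicit false

namespace Pool.Agent.H597R2

open Complex Metric Set Filter Topology

/-- Nevanlinna characteristic of a holomorphic function -/
noncomputable def TT (f : ℂ → ℂ) (s : ℝ) : ℝ :=
  Real.circleAverage (fun w => Real.posLog ‖f w‖) 0 s

theorem TT_eq (f : ℂ → ℂ) (s : ℝ) :
    (2 * Real.pi)⁻¹ * ∫ θ in (0:ℝ)..(2 * Real.pi),
                Real.posLog ‖f ((s : ℂ) * Complex.exp ((θ : ℂ) * Complex.I))‖ = TT f s := by
  simp [TT, Real.circleAverage, circleMap]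

theorem TT_nonneg (f : ℂ → ℂ) (s : ℝ) : 0 ≤ TT f s := by
  apply Real.circleAverage_nonneg_of_nonneg
  intro x _
  exact Real.posLog_nonneg

theorem harmonic_re {G : ℂ → ℂ} (hG : DifferentiableOn ℂ G (ball 0 1)) {R : ℝ} (hR1 : R < 1) :
    InnerProductSpace.HarmonicOnNhd (fun w => (G w).re) (closedBall 0 R) := by
  intro w hw
  exact (hG.analyticOnNhd isOpen_ball w (closedBall_subset_ball hR1 hw)).harmonicAt_re

theorem mean_re {G : ℂ → ℂ} (hG : DifferentiableOn ℂ G (ball 0 1)) {R : ℝ} (hR : 0 < R)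
    (hR1 : R < 1) : Real.circleAverage (fun w => (G w).re) 0 R = (G 0).re := by
  apply InnerProductSpace.HarmonicOnNhd.circleAverage_eq
  rw [abs_of_pos hR]
  exact harmonic_re hG hR1

theorem harnack {G : ℂ → ℂ} {R : ℝ} (hR : 0 < R) (hR1 : R < 1)
    (hG : DifferentiableOn ℂ G (ball 0 1)) (hpos : ∀ w ∈ sphere (0 : ℂ) R, 0 ≤ (G w).re)
    {w : ℂ} (hw : w ∈ ball (0 : ℂ) R) :
    (R - ‖w‖) / (R + ‖w‖) * (G 0).re ≤ (G w).re := by
  have hharm := harmonic_re hG hR1
  have h1 := hharm.circleAverage_re_herglotzRieszKernel_smul hw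
  rw [← mean_re hG hR hR1, ← h1]
  have hcont : ContinuousOn (fun w => (G w).re) (sphere (0 : ℂ) |R|) := by
    rw [abs_of_pos hR]
    apply Complex.continuous_re.comp_continuousOn
    exact hG.continuousOn.mono (sphere_subset_closedBall.trans (closedBall_subset_ball hR1))
  have h2 : (R - ‖w‖) / (R + ‖w‖) * Real.circleAverage (fun w => (G w).re) 0 R
      = Real.circleAverage (fun v => ((R - ‖w‖) / (R + ‖w‖)) • (G v).re) 0 R := by
    rw [Real.circleAverage_fun_smul]; rfl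
  rw [h2]
  apply Real.circleAverage_mono
  · apply ContinuousOn.circleIntegrable'
    exact hcont.const_smul ((R - ‖w‖) / (R + ‖w‖))
  · apply ContinuousOn.circleIntegrable'
    apply ContinuousOn.smul
    · exact Complex.continuous_re.comp_continuousOn (continuousOn_herglotzRieszKernel_sphere hw)
    · exact hcont
  · intro v hv
    rw [abs_of_pos hR] at hv
    have h3 := le_re_herglotzRieszKernel hv hw
    simp only [sub_zero] at h3
    have h4 := hpos v hv
    simp only [smul_eq_mul, Pi.smul_apply', Function.comp_apply, herglotzRieszKernel_def, sub_zero]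
    gcongr

/-- comparison of characteristic with a harmonic majorant -/
theorem TT_le_of_majorant {f G : ℂ → ℂ} {s : ℝ} (hs : 0 < s) (hs1 : s < 1)
    (hf : DifferentiableOn ℂ f (ball 0 1)) (hG : DifferentiableOn ℂ G (ball 0 1))
    (h1 : ∀ w ∈ sphere (0 : ℂ) s, 0 ≤ (G w).re)
    (h2 : ∀ w ∈ sphere (0 : ℂ) s, ‖f w‖ ≤ Real.exp (G w).re) :
    TT f s ≤ (G 0).re := by
  rw [← mean_re hG hs hs1]
  have hsub : sphere (0 : ℂ) |s| ⊆ ball 0 1 := by
    rw [abs_of_pos hs]
    exact sphere_subset_closedBall.trans (closedBall_subset_ball hs1)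
  apply Real.circleAverage_mono
  · apply ContinuousOn.circleIntegrable'
    apply Real.continuous_posLog.comp_continuousOn
    exact (hf.continuousOn.mono hsub).norm
  · apply ContinuousOn.circleIntegrable'
    exact Complex.continuous_re.comp_continuousOn (hG.continuousOn.mono hsub)
  · intro w hw
    rw [abs_of_pos hs] at hw
    have h3 := h1 w hw
    have h4 := h2 w hw
    rw [Real.posLog]
    apply max_le h3
    rcases eq_or_lt_of_le (norm_nonneg (f w)) with h | h
    · rw [← h]; simpa using h3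
    · rw [Real.log_le_iff_le_exp h]
      exact h4

/-- a Schwarz-Pick type estimate -/
theorem self_map_estimate {Z : ℂ → ℂ} (hZ : DifferentiableOn ℂ Z (ball 0 1))
    (hZ1 : ∀ w ∈ ball (0 : ℂ) 1, ‖Z w‖ < 1) {w : ℂ} (hw : w ∈ ball (0 : ℂ) 1) :
    (1 - ‖Z 0‖) / 4 * (1 - ‖w‖) ≤ 1 - ‖Z w‖ := by
  have hw1 : ‖w‖ < 1 := by simpa using hw
  set R := (1 + ‖w‖) / 2 with hR
  have hRw : ‖w‖ < R := by rw [hR]; linarith
  have hR1 : R < 1 := by rw [hR]; linarith
  have hR0 : 0 < R := lt_of_le_of_lt (norm_nonneg _) hRw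
  -- rotate so that `ζ Z(w) = ‖Z w‖`
  obtain ⟨ζ, hζ, hζw⟩ : ∃ ζ : ℂ, ‖ζ‖ = 1 ∧ ζ * Z w = ‖Z w‖ := by
    by_cases h : Z w = 0
    · exact ⟨1, by simp, by simp [h]⟩
    · refine ⟨(starRingEnd ℂ) (Z w) / ‖Z w‖, ?_, ?_⟩
      · rw [norm_div]
        simp [h]
      · have h' : (‖Z w‖ : ℂ) ≠ 0 := by exact_mod_cast (norm_ne_zero_iff.mpr h)
        rw [div_mul_eq_mul_div, div_eq_iff h', mul_comm, Complex.mul_conj]
        rw [Complex.normSq_eq_norm_sq]
        push_cast
        ring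
  have hG : DifferentiableOn ℂ (fun v => 1 - ζ * Z v) (ball 0 1) :=
    (differentiableOn_const 1).sub (hZ.const_mul ζ)
  have hre : ∀ v ∈ ball (0 : ℂ) 1, (ζ * Z v).re ≤ ‖Z v‖ := by
    intro v _
    refine (Complex.re_le_norm _).trans ?_
    rw [norm_mul, hζ, one_mul]
  have h := harnack (G := fun v => 1 - ζ * Z v) hR0 hR1 hG (by
    intro v hv
    have hv' : v ∈ ball (0 : ℂ) 1 :=
      closedBall_subset_ball hR1 (sphere_subset_closedBall hv)
    have := hre v hv'
    have := hZ1 v hv'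
    simp only [sub_re, one_re]
    linarith) (w := w) (by simpa using hRw)
  simp only [sub_re, one_re] at h
  rw [hζw] at h
  simp only [ofReal_re] at h
  have h0 := hre 0 (mem_ball_self one_pos)
  have h1 : 1 - ‖Z 0‖ ≤ 1 - (ζ * Z 0).re := by linarith
  have h2 : (1 - ‖w‖) / 4 ≤ (R - ‖w‖) / (R + ‖w‖) := by
    rw [le_div_iff₀ (by positivity)]
    have : R - ‖w‖ = (1 - ‖w‖) / 2 := by rw [hR]; ring
    rw [this]
    nlinarith [norm_nonneg w]
  have h3 : 0 < 1 - ‖Z 0‖ := by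
    have := hZ1 0 (mem_ball_self one_pos)
    linarith
  have h4 : 0 ≤ (1 - ‖w‖) / 4 := by linarith
  calc (1 - ‖Z 0‖) / 4 * (1 - ‖w‖) = (1 - ‖w‖) / 4 * (1 - ‖Z 0‖) := by ring
    _ ≤ (R - ‖w‖) / (R + ‖w‖) * (1 - (ζ * Z 0).re) := by
      apply mul_le_mul h2 h1 h3.le (h4.trans h2)
    _ ≤ _ := h

end Pool.Agent.H597R2
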