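import Pool.Agent.H597R2.Bloch

set_option autoImplicit false

namespace Pool.Agent.H597R2

open Complex Metric Set Filter Topology

/-- holomorphic logarithm on a ball -/
theorem exists_log_ball {f : ℂ → ℂ} {a : ℂ} {r : ℝ} (hr : 0 < r)
    (hf : DifferentiableOn ℂ f (ball a r)) (h0 : ∀ z ∈ ball a r, f z ≠ 0) :
    ∃ g : ℂ → ℂ, DifferentiableOn ℂ g (ball a r) ∧ ∀ z ∈ ball a r, exp (g z) = f z := by
  have hf' : DifferentiableOn ℂ (deriv f) (ball a r) := hf.deriv isOpen_ball
  have hq : DifferentiableOn ℂ (fun z => deriv f z / f z) (ball a r) := hf'.div hf h0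
  obtain ⟨G, hG⟩ := hq.isExactOn_ball
  have ha : a ∈ ball a r := mem_ball_self hr
  -- f * exp (-G) is constant
  have hconst : ∀ z ∈ ball a r, f z * exp (-G z) = f a * exp (-G a) := by
    intro z hz
    have hd : ∀ w ∈ ball a r, HasDerivAt (fun w => f w * exp (-G w)) 0 w := by
      intro w hw
      have h1 : HasDerivAt f (deriv f w) w :=
        ((hf w hw).differentiableAt (isOpen_ball.mem_nhds hw)).hasDerivAt
      have h2 : HasDerivAt G (deriv f w / f w) w := hG w hw
      have h3 := h1.mul (h2.neg.cexp)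
      have h4 : deriv f w * exp (-G w) + f w * (exp (-G w) * -(deriv f w / f w)) = 0 := by
        have := h0 w hw
        field_simp
        ring
      rw [← h4]
      exact h3
    have hdiff : DifferentiableOn ℂ (fun w => f w * exp (-G w)) (ball a r) := fun w hw =>
      (hd w hw).differentiableAt.differentiableWithinAt
    have := (convex_ball a r).is_const_of_fderivWithin_eq_zero (𝕜 := ℂ) hdiff (by
      intro w hw
      rw [fderivWithin_of_isOpen isOpen_ball hw]
      ext
      simp [(hd w hw).deriv]) hz ha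
    simpa using this
  have hne : f a * exp (-G a) ≠ 0 := mul_ne_zero (h0 a ha) (exp_ne_zero _)
  refine ⟨fun z => G z + log (f a * exp (-G a)), ?_, ?_⟩
  · intro w hw
    exact ((hG w hw).differentiableAt.add_const _).differentiableWithinAt
  · intro z hz
    rw [exp_add, exp_log hne, ← hconst z hz]
    rw [mul_comm (f z), ← mul_assoc, ← exp_add]
    simp

theorem exists_sqrt_ball {f : ℂ → ℂ} {a : ℂ} {r : ℝ} (hr : 0 < r)
    (hf : DifferentiableOn ℂ f (ball a r)) (h0 : ∀ z ∈ ball a r, f z ≠ 0) :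
    ∃ g : ℂ → ℂ, DifferentiableOn ℂ g (ball a r) ∧ ∀ z ∈ ball a r, g z ^ 2 = f z := by
  obtain ⟨g, hg, hgf⟩ := exists_log_ball hr hf h0
  refine ⟨fun z => exp (g z / 2), (hg.div_const 2).cexp, fun z hz => ?_⟩
  rw [← exp_nat_mul, ← hgf z hz]
  congr 1
  push_cast
  ring

theorem cosh_sq_dense (w : ℂ) : ∃ l ∈ ball w 2, ∃ n : ℤ, Complex.cosh l ^ 2 = n := by
  set X := |w.re| with hX
  have hX0 : 0 ≤ X := abs_nonneg _
  set n := ⌊Real.cosh X ^ 2⌋ with hn
  have hn1 : (n : ℝ) ≤ Real.cosh X ^ 2 := Int.floor_le _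
  have hn2 : Real.cosh X ^ 2 < n + 1 := Int.lt_floor_add_one _
  have h1n : (1 : ℝ) ≤ n := by
    have : (1 : ℤ) ≤ n := by
      rw [hn, Int.le_floor]
      have := Real.one_le_cosh X
      push_cast
      nlinarith
    exact_mod_cast this
  -- intermediate value
  obtain ⟨t, ht, htn⟩ : ∃ t ∈ Icc (0 : ℝ) X, Real.cosh t ^ 2 = n := by
    have hc : ContinuousOn (fun t : ℝ => Real.cosh t ^ 2) (Icc 0 X) :=
      (Real.continuous_cosh.pow 2).continuousOn
    have := intermediate_value_Icc hX0 hc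
    have hmem : (n : ℝ) ∈ Icc (Real.cosh 0 ^ 2) (Real.cosh X ^ 2) := by
      refine ⟨?_, hn1⟩
      simpa using h1n
    exact this hmem
  have hs : Real.sinh (X - t) < 1 := by
    by_contra hcon
    push Not at hcon
    have h1 : Real.cosh X ^ 2 - Real.cosh t ^ 2 = Real.sinh (X + t) * Real.sinh (X - t) := by
      rw [Real.sinh_add, Real.sinh_sub]
      have e1 := Real.cosh_sq X
      have e2 := Real.cosh_sq t
      linear_combination (1 + Real.sinh t ^ 2) * e1 - (1 + Real.sinh X ^ 2) * e2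
    have h2 : Real.sinh (X - t) ≤ Real.sinh (X + t) := by
      rw [Real.sinh_le_sinh]
      have := ht.1
      linarith
    have h3 : 1 ≤ Real.sinh (X + t) * Real.sinh (X - t) := by nlinarith
    linarith
  have hs2 : X - t < 1 := by
    have h := Real.self_le_sinh_iff.mpr (sub_nonneg.mpr ht.2)
    linarith
  -- choose the sign
  obtain ⟨e, he, heX⟩ : ∃ e : ℝ, (e = 1 ∨ e = -1) ∧ w.re = e * X := by
    rcases le_total 0 w.re with h | h
    · exact ⟨1, Or.inl rfl, by rw [hX, abs_of_nonneg h]; ring⟩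
    · exact ⟨-1, Or.inr rfl, by rw [hX, abs_of_nonpos h]; ring⟩
  set k := round (w.im / Real.pi) with hk
  have hkb : |w.im - Real.pi * k| ≤ Real.pi / 2 := by
    have h1 : |w.im / Real.pi - k| ≤ 1 / 2 := abs_sub_round _
    have h2 : w.im - Real.pi * k = Real.pi * (w.im / Real.pi - k) := by
      field_simp
    rw [h2, abs_mul, abs_of_pos Real.pi_pos]
    nlinarith [Real.pi_pos]
  refine ⟨((e * t : ℝ) : ℂ) + ((k : ℂ) * Real.pi) * I, ?_, n, ?_⟩
  · rw [mem_ball, dist_eq_norm]
    have hre : (((e * t : ℝ) : ℂ) + ((k : ℂ) * Real.pi) * I - w).re = e * t - w.re := by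
      simp
    have him : (((e * t : ℝ) : ℂ) + ((k : ℂ) * Real.pi) * I - w).im = k * Real.pi - w.im := by
      simp
    have hsq : ‖((e * t : ℝ) : ℂ) + ((k : ℂ) * Real.pi) * I - w‖ ^ 2 < 2 ^ 2 := by
      rw [Complex.sq_norm, Complex.normSq_apply, hre, him]
      have a1 : (e * t - w.re) * (e * t - w.re) = (X - t) ^ 2 := by
        rw [heX]
        rcases he with h | h <;> rw [h] <;> ring
      have a2 : (k * Real.pi - w.im) * (k * Real.pi - w.im) ≤ (Real.pi / 2) ^ 2 := by
        have := sq_le_sq' (abs_le.mp hkb).1 (abs_le.mp hkb).2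
        nlinarith
      have a3 : (X - t) ^ 2 < 1 := by
        have := ht.2
        nlinarith
      have a4 : Real.pi < 3.15 := Real.pi_lt_d2
      have a5 := Real.pi_pos
      nlinarith
    exact lt_of_pow_lt_pow_left₀ 2 (by norm_num) hsq
  · have hs0 : Complex.sinh ((k : ℂ) * Real.pi * I) = 0 := by
      rw [Complex.sinh_mul_I, Complex.sin_int_mul_pi]; simp
    have hc0 : Complex.cosh ((k : ℂ) * Real.pi * I) ^ 2 = 1 := by
      have := Complex.cosh_sq ((k : ℂ) * Real.pi * I)
      rw [this, hs0]; simp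
    rw [Complex.cosh_add, hs0, mul_zero, add_zero, mul_pow, hc0, mul_one]
    have : Real.cosh (e * t) = Real.cosh t := by
      rcases he with h | h <;> rw [h] <;> simp
    rw [← Complex.ofReal_cosh, this]
    have := congrArg (fun x : ℝ => (x : ℂ)) htn
    push_cast at this ⊢
    exact this

/-- Schottky-type growth bound for functions on the disc omitting `0` and `1`. -/
theorem growth_omit {c : ℂ → ℂ} (hc : DifferentiableOn ℂ c (ball 0 1))
    (h0 : ∀ z ∈ ball (0 : ℂ) 1, c z ≠ 0) (h1 : ∀ z ∈ ball (0 : ℂ) 1, c z ≠ 1) :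
    ∃ A : ℝ, ∀ z ∈ ball (0 : ℂ) 1,
      ‖c z‖ ≤ Real.exp (7 * Real.exp (A + 512 / (1 - ‖z‖))) := by
  obtain ⟨L, hL, hLc⟩ := exists_log_ball one_pos hc h0
  set F : ℂ → ℂ := fun z => L z / (2 * Real.pi * I) with hF
  have h2pi : (2 * Real.pi * I : ℂ) ≠ 0 := by simp [Real.pi_ne_zero]
  have hFd : DifferentiableOn ℂ F (ball 0 1) := hL.div_const _
  have hFc : ∀ z ∈ ball (0 : ℂ) 1, exp (2 * Real.pi * I * F z) = c z := by
    intro z hz
    rw [← hLc z hz]
    congr 1
    rw [hF]; field_simp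
  have hFZ : ∀ z ∈ ball (0 : ℂ) 1, ∀ n : ℤ, F z ≠ n := by
    intro z hz n hn
    apply h1 z hz
    rw [← hFc z hz, hn, exp_eq_one_iff]
    exact ⟨n, by ring⟩
  obtain ⟨u, hu, huF⟩ := exists_sqrt_ball one_pos hFd (fun z hz => by simpa using hFZ z hz 0)
  obtain ⟨v, hv, hvF⟩ := exists_sqrt_ball one_pos (hFd.sub_const 1)
    (fun z hz => by simpa [sub_eq_zero] using hFZ z hz 1)
  have hmul : ∀ z ∈ ball (0 : ℂ) 1, (u z - v z) * (u z + v z) = 1 := by
    intro z hz
    have e1 := huF z hz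
    have e2 := hvF z hz
    linear_combination e1 - e2
  obtain ⟨g, hg, hge⟩ := exists_log_ball one_pos (hu.sub hv) (fun z hz hzero => by
    have := hmul z hz
    simp only [Pi.sub_apply] at hzero
    rw [hzero] at this
    simp at this)
  have hcosh : ∀ z ∈ ball (0 : ℂ) 1, Complex.cosh (g z) ^ 2 = F z := by
    intro z hz
    have e0 : exp (g z) = u z - v z := hge z hz
    have e1 : exp (-g z) = u z + v z := by
      rw [exp_neg, e0]
      exact inv_eq_of_mul_eq_one_right (hmul z hz)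
    rw [Complex.cosh, e0, e1, ← huF z hz]
    ring
  have hnb : ∀ w : ℂ, ¬ ball w 1 ⊆ (fun z => g z / 2) '' ball 0 1 := by
    intro w hw
    obtain ⟨l, hl, n, hn⟩ := cosh_sq_dense (2 * w)
    have hl2 : l / 2 ∈ ball w 1 := by
      rw [mem_ball, dist_eq_norm] at hl ⊢
      have : l / 2 - w = (l - 2 * w) / 2 := by ring
      rw [this, norm_div]
      simp only [Complex.norm_ofNat]
      linarith
    obtain ⟨z, hz, hzl⟩ := hw hl2
    have hzl' : g z = l := by
      simp only at hzl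
      linear_combination 2 * hzl
    apply hFZ z hz n
    rw [← hcosh z hz, hzl', hn]
  refine ⟨2 * ‖g 0‖, fun z hz => ?_⟩
  have hz1 : ‖z‖ < 1 := by simpa using hz
  have hpos : 0 < 1 - ‖z‖ := by linarith
  have hgz : ‖g z‖ ≤ ‖g 0‖ + 256 / (1 - ‖z‖) := by
    have := growth_of_no_ball (hg.div_const 2) hnb hz
    simp only [norm_div, Complex.norm_ofNat] at this
    have e : (256 : ℝ) / (1 - ‖z‖) = 2 * (128 / (1 - ‖z‖)) := by ring
    rw [e]
    linarith
  have hcb : ‖Complex.cosh (g z)‖ ≤ Real.exp ‖g z‖ := by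
    rw [Complex.cosh, norm_div]
    simp only [Complex.norm_ofNat]
    have t1 : ‖exp (g z)‖ ≤ Real.exp ‖g z‖ := by
      rw [Complex.norm_exp]; exact Real.exp_le_exp.mpr (Complex.re_le_norm _)
    have t2 : ‖exp (-g z)‖ ≤ Real.exp ‖g z‖ := by
      rw [Complex.norm_exp]
      refine Real.exp_le_exp.mpr ((Complex.re_le_norm _).trans ?_)
      rw [norm_neg]
    have t3 := norm_add_le (exp (g z)) (exp (-g z))
    linarith
  have hFb : ‖F z‖ ≤ Real.exp (2 * ‖g 0‖ + 512 / (1 - ‖z‖)) := by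
    rw [← hcosh z hz, norm_pow]
    calc ‖Complex.cosh (g z)‖ ^ 2 ≤ (Real.exp ‖g z‖) ^ 2 := by gcongr
      _ = Real.exp (2 * ‖g z‖) := by rw [← Real.exp_nat_mul]; norm_num
      _ ≤ _ := by
        apply Real.exp_le_exp.mpr
        have e : (512 : ℝ) / (1 - ‖z‖) = 2 * (256 / (1 - ‖z‖)) := by ring
        rw [e]
        linarith
  rw [← hFc z hz, Complex.norm_exp]
  apply Real.exp_le_exp.mpr
  calc (2 * Real.pi * I * F z).re ≤ ‖2 * Real.pi * I * F z‖ := Complex.re_le_norm _
    _ = 2 * Real.pi * ‖F z‖ := by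
      rw [norm_mul, norm_mul, norm_mul]
      simp [abs_of_pos Real.pi_pos]
    _ ≤ 7 * ‖F z‖ := by
      have : 2 * Real.pi ≤ 7 := by have := Real.pi_lt_d2; linarith
      gcongr
    _ ≤ _ := by gcongr

end Pool.Agent.H597R2
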