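import Pool.Agent.H597R2.Model

set_option autoImplicit false

namespace Pool.Agent.H597R2

open Complex Metric Set Filter Topology

section preds

variable {R : Type} [CommRing R]

def IsRealC (c : R) : Prop := IsConst c ∧ ∀ f : R, ¬ IsConst f → ¬ IsUnit (f - c) →
  ∃ p q : R, IsZ p ∧ IsZ q ∧ q ≠ 0 ∧ ¬ IsUnit (q * f - p)

def IsNN (c : R) : Prop := ∃ d : R, IsRealC d ∧ c = d * d

def IsPos (c : R) : Prop := IsNN c ∧ c ≠ 0

/-- `n = |c|^2` -/
def NSq (c n : R) : Prop := ∃ a b i : R, IsRealC a ∧ IsRealC b ∧ i * i = -1 ∧ c = a + b * i ∧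
  n = a * a + b * b

/-- `|c| < |d|` -/
def AbsLt (c d : R) : Prop := ∃ n m : R, NSq c n ∧ NSq d m ∧ IsPos (m - n)

def IsNatC (c : R) : Prop := IsZ c ∧ IsNN c

/-- `b = a ^ n` -/
def Pw (a n b : R) : Prop := ∃ x h : R, (∀ m, IsNatC m → ¬ IsUnit (x - m)) ∧ x ∣ (h - 1) ∧
  (∀ m c, IsNatC m → IsConst c → (x - m) ∣ (h - c) → (x - m - 1) ∣ (h - a * c)) ∧
  (x - n) ∣ (h - b)

def IsCoord (z : R) : Prop := (∀ α, IsConst α → (¬ IsUnit (z - α) ↔ AbsLt α 1)) ∧
  ∀ α f, AbsLt α 1 → ∃ β, IsConst β ∧ (z - α) ∣ (f - β)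

end preds

section defs

variable {R : Type} [CommRing R] [FirstOrder.Ring.CompatibleRing R]

theorem D1.IsRealC : D1 (fun c : R => IsRealC c) := by
  intro α c hc
  refine (D1.IsConst hc).and (FD.all ?_)
  refine (D1.IsConst TD.top).not.imp ((D1.isUnit (TD.top.sub hc.lift)).not.imp (FD.ex (FD.ex ?_)))
  have hp : TD (fun w : Option (Option (Option α)) → R => w (some none)) := TD.var _
  have hq : TD (fun w : Option (Option (Option α)) → R => w none) := TD.var _
  have hf : TD (fun w : Option (Option (Option α)) → R => w (some (some none))) := TD.var _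
  exact (D1.IsZ hp).and ((D1.IsZ hq).and ((FD.ne hq TD.zero).and
    (D1.isUnit ((hq.mul hf).sub hp)).not))

theorem D1.IsNN : D1 (fun c : R => IsNN c) := by
  intro α c hc
  exact FD.ex ((D1.IsRealC TD.top).and (FD.eq hc.lift (TD.top.mul TD.top)))

theorem D1.IsPos : D1 (fun c : R => IsPos c) := by
  intro α c hc
  exact (D1.IsNN hc).and (FD.ne hc TD.zero)

theorem D2.NSq : D2 (fun c n : R => NSq c n) := by
  intro α c n hc hn
  refine FD.ex (FD.ex (FD.ex ?_))
  have ha : TD (fun w : Option (Option (Option α)) → R => w (some (some none))) := TD.var _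
  have hb : TD (fun w : Option (Option (Option α)) → R => w (some none)) := TD.var _
  have hi : TD (fun w : Option (Option (Option α)) → R => w none) := TD.var _
  exact (D1.IsRealC ha).and ((D1.IsRealC hb).and ((FD.eq (hi.mul hi) TD.one.neg).and
    ((FD.eq hc.lift.lift.lift (ha.add (hb.mul hi))).and
      (FD.eq hn.lift.lift.lift ((ha.mul ha).add (hb.mul hb))))))

theorem D2.AbsLt : D2 (fun c d : R => AbsLt c d) := by
  intro α c d hc hd
  refine FD.ex (FD.ex ?_)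
  have hn : TD (fun w : Option (Option α) → R => w (some none)) := TD.var _
  have hm : TD (fun w : Option (Option α) → R => w none) := TD.var _
  exact (D2.NSq hc.lift.lift hn).and ((D2.NSq hd.lift.lift hm).and (D1.IsPos (hm.sub hn)))

theorem D1.IsNatC : D1 (fun c : R => IsNatC c) := by
  intro α c hc
  exact (D1.IsZ hc).and (D1.IsNN hc)

theorem D3.Pw : D3 (fun a n b : R => Pw a n b) := by
  intro α a n b ha hn hb
  refine FD.ex (FD.ex ?_)
  have hx : TD (fun w : Option (Option α) → R => w (some none)) := TD.var _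
  have hh : TD (fun w : Option (Option α) → R => w none) := TD.var _
  refine FD.and (FD.all ?_) ((D2.dvd hx (hh.sub TD.one)).and (FD.and (FD.all (FD.all ?_)) ?_))
  · exact (D1.IsNatC TD.top).imp (D1.isUnit (hx.lift.sub TD.top)).not
  · have hm : TD (fun w : Option (Option (Option (Option α))) → R => w (some none)) := TD.var _
    have hc : TD (fun w : Option (Option (Option (Option α))) → R => w none) := TD.var _
    exact (D1.IsNatC hm).imp ((D1.IsConst hc).imp ((D2.dvd (hx.lift.lift.sub hm)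
      (hh.lift.lift.sub hc)).imp (D2.dvd ((hx.lift.lift.sub hm).sub TD.one)
        (hh.lift.lift.sub (ha.lift.lift.lift.lift.mul hc)))))
  · exact D2.dvd (hx.sub hn.lift.lift) (hh.sub hb.lift.lift)

theorem D1.IsCoord : D1 (fun z : R => IsCoord z) := by
  intro α z hz
  refine FD.and (FD.all ?_) (FD.all (FD.all ?_))
  · exact (D1.IsConst TD.top).imp ((D1.isUnit (hz.lift.sub TD.top)).not.iff
      (D2.AbsLt TD.top TD.one))
  · have ha : TD (fun w : Option (Option α) → R => w (some none)) := TD.var _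
    have hf : TD (fun w : Option (Option α) → R => w none) := TD.var _
    refine (D2.AbsLt ha TD.one).imp (FD.ex ?_)
    exact (D1.IsConst TD.top).and (D2.dvd (hz.lift.lift.lift.sub ha.lift) (hf.lift.sub TD.top))

end defs

namespace HolModel

variable {R : Type} [CommRing R] (H : HolModel R)
include H

theorem isConst_cst (c : ℂ) : IsConst (H.cst c) := (H.isConst_iff _).mpr ⟨c, rfl⟩

theorem image_open {f : R} (hf : ¬ IsConst f) : IsOpen (H.ev f '' ball 0 1) := by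
  have han : AnalyticOnNhd ℂ (H.ev f) (ball 0 1) := (H.diff f).analyticOnNhd isOpen_ball
  rcases han.is_constant_or_isOpen (convex_ball (0 : ℂ) 1).isPreconnected with ⟨w, hw⟩ | hopen
  · exfalso
    apply hf
    rw [H.isConst_iff]
    exact ⟨w, H.inj _ _ fun z hz => by rw [hw z hz, H.ev_cst _ hz]⟩
  · exact hopen _ subset_rfl isOpen_ball

theorem isRealC_iff (c : R) : IsRealC c ↔ ∃ t : ℝ, c = H.cst t := by
  constructor
  · rintro ⟨hc, hf⟩
    obtain ⟨w, rfl⟩ := (H.isConst_iff c).mp hc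
    refine ⟨w.re, ?_⟩
    by_contra hne
    have him : w.im ≠ 0 := by
      intro h
      apply hne
      congr 1
      apply Complex.ext <;> simp [h]
    have hd : DifferentiableOn ℂ (fun z : ℂ => w + (w.im / 2 : ℝ) * z) (ball 0 1) := by fun_prop
    obtain ⟨p, q, hp, hq, hq0, hu⟩ := hf (H.lft _ hd) (by
      rw [H.isConst_iff]
      rintro ⟨c, hc⟩
      have h0 := H.ev_lft _ hd (mem_ball_self one_pos)
      have h1 : (1 / 2 : ℂ) ∈ ball (0 : ℂ) 1 := by
        rw [mem_ball_zero_iff]; norm_num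
      have h2 := H.ev_lft _ hd h1
      rw [hc, H.ev_cst _ (mem_ball_self one_pos)] at h0
      rw [hc, H.ev_cst _ h1, h0] at h2
      have h3 : ((w.im / 2 : ℝ) : ℂ) = 0 := by linear_combination -2 * h2
      have h4 : w.im / 2 = 0 := by exact_mod_cast h3
      exact him (by linarith))
      (by
        rw [H.not_isUnit_iff]
        refine ⟨0, mem_ball_self one_pos, ?_⟩
        rw [H.ev_sub _ _ (mem_ball_self one_pos), H.ev_lft _ _ (mem_ball_self one_pos),
          H.ev_cst _ (mem_ball_self one_pos)]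
        simp)
    obtain ⟨p, rfl⟩ := (H.isZ_iff p).mp hp
    obtain ⟨q, rfl⟩ := (H.isZ_iff q).mp hq
    obtain ⟨z, hz, hz0⟩ := (H.not_isUnit_iff _).mp hu
    rw [H.ev_sub _ _ hz, H.ev_mul _ _ z hz, H.ev_int _ hz, H.ev_int _ hz, H.ev_lft _ _ hz] at hz0
    have hq' : (q : ℝ) ≠ 0 := by
      intro h
      apply hq0
      have : q = 0 := by exact_mod_cast h
      rw [this]; simp
    have h5 := congrArg Complex.im hz0
    simp at h5
    rcases h5 with h5 | h5
    · exact hq' (by exact_mod_cast h5)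
    · have h6 : w.im * (1 + z.im / 2) = 0 := by linarith
      rcases mul_eq_zero.mp h6 with h7 | h7
      · exact him h7
      · have h8 : z.im = -2 := by linarith
        have h9 := Complex.abs_im_le_norm z
        rw [h8] at h9
        have h10 : ‖z‖ < 1 := by simpa using hz
        norm_num at h9
        linarith
  · rintro ⟨t, rfl⟩
    refine ⟨H.isConst_cst _, ?_⟩
    intro f hf hu
    obtain ⟨z, hz, hz0⟩ := (H.not_isUnit_iff _).mp hu
    rw [H.ev_sub _ _ hz, H.ev_cst _ hz, sub_eq_zero] at hz0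
    have hop := H.image_open hf
    have ht : (t : ℂ) ∈ H.ev f '' ball 0 1 := ⟨z, hz, hz0⟩
    obtain ⟨ε, hε, hball⟩ := Metric.isOpen_iff.mp hop _ ht
    obtain ⟨q, hq1, hq2⟩ := exists_rat_btwn (show t < t + ε by linarith)
    have hmem : ((q : ℝ) : ℂ) ∈ ball (t : ℂ) ε := by
      rw [mem_ball, dist_eq_norm, ← Complex.ofReal_sub, Complex.norm_real, Real.norm_eq_abs,
        abs_lt]
      constructor <;> linarith
    obtain ⟨v, hv, hvq⟩ := hball hmem
    refine ⟨(q.num : R), ((q.den : ℤ) : R), (H.isZ_iff _).mpr ⟨_, rfl⟩,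
      (H.isZ_iff _).mpr ⟨_, rfl⟩, ?_, ?_⟩
    · intro h
      have := H.ev_int (q.den : ℤ) (mem_ball_self one_pos)
      rw [h, H.ev_zero (mem_ball_self one_pos)] at this
      have h2 : (q.den : ℤ) = 0 := by exact_mod_cast this.symm
      have := q.den_ne_zero
      omega
    · rw [H.not_isUnit_iff]
      refine ⟨v, hv, ?_⟩
      rw [H.ev_sub _ _ hv, H.ev_mul _ _ v hv, H.ev_int _ hv, H.ev_int _ hv, hvq]
      have h3 : (q : ℝ) = q.num / q.den := by exact_mod_cast (Rat.num_div_den q).symm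
      have h4 : (q.den : ℝ) ≠ 0 := by exact_mod_cast q.den_ne_zero
      have h5 : (q.den : ℝ) * q - q.num = 0 := by rw [h3]; field_simp; ring
      exact_mod_cast h5

theorem isNN_iff (c : R) : IsNN c ↔ ∃ t : ℝ, 0 ≤ t ∧ c = H.cst t := by
  constructor
  · rintro ⟨d, hd, rfl⟩
    obtain ⟨t, rfl⟩ := (H.isRealC_iff d).mp hd
    refine ⟨t * t, mul_self_nonneg t, ?_⟩
    rw [Complex.ofReal_mul, H.cst_mul]
  · rintro ⟨t, ht, rfl⟩
    refine ⟨H.cst (Real.sqrt t : ℝ), (H.isRealC_iff _).mpr ⟨_, rfl⟩, ?_⟩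
    rw [← H.cst_mul, ← Complex.ofReal_mul, Real.mul_self_sqrt ht]

theorem isPos_iff (c : R) : IsPos c ↔ ∃ t : ℝ, 0 < t ∧ c = H.cst t := by
  constructor
  · rintro ⟨h, h0⟩
    obtain ⟨t, ht, rfl⟩ := (H.isNN_iff c).mp h
    refine ⟨t, lt_of_le_of_ne ht ?_, rfl⟩
    rintro rfl
    apply h0
    simpa using H.cst_zero
  · rintro ⟨t, ht, rfl⟩
    refine ⟨(H.isNN_iff _).mpr ⟨t, ht.le, rfl⟩, ?_⟩
    intro h
    rw [← H.cst_zero] at h
    have := H.cst_inj h
    have h2 : t = 0 := by exact_mod_cast this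
    linarith

theorem nsq_iff (c n : R) : NSq c n ↔ ∃ w : ℂ, c = H.cst w ∧ n = H.cst ((‖w‖ ^ 2 : ℝ) : ℂ) := by
  constructor
  · rintro ⟨a, b, i, ha, hb, hi, rfl, rfl⟩
    obtain ⟨a, rfl⟩ := (H.isRealC_iff a).mp ha
    obtain ⟨b, rfl⟩ := (H.isRealC_iff b).mp hb
    rcases H.sqrt_neg_one hi with h | h
    · refine ⟨a + b * I, ?_, ?_⟩
      · rw [h, H.cst_add, H.cst_mul]
      · rw [← H.cst_mul, ← H.cst_mul, ← H.cst_add]
        congr 1
        rw [Complex.sq_norm, Complex.normSq_apply]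
        simp
    · refine ⟨a + b * (-I), ?_, ?_⟩
      · rw [h, H.cst_add, H.cst_mul]
      · rw [← H.cst_mul, ← H.cst_mul, ← H.cst_add]
        congr 1
        rw [Complex.sq_norm, Complex.normSq_apply]
        simp
  · rintro ⟨w, rfl, rfl⟩
    refine ⟨H.cst w.re, H.cst w.im, H.cst I, (H.isRealC_iff _).mpr ⟨_, rfl⟩,
      (H.isRealC_iff _).mpr ⟨_, rfl⟩, ?_, ?_, ?_⟩
    · rw [← H.cst_mul, I_mul_I, H.cst_neg, H.cst_one]
    · rw [← H.cst_mul, ← H.cst_add, Complex.re_add_im]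
    · rw [← H.cst_mul, ← H.cst_mul, ← H.cst_add]
      congr 1
      rw [Complex.sq_norm, Complex.normSq_apply]
      simp

theorem absLt_iff (c d : R) :
    AbsLt c d ↔ ∃ u v : ℂ, c = H.cst u ∧ d = H.cst v ∧ ‖u‖ < ‖v‖ := by
  constructor
  · rintro ⟨n, m, hn, hm, hp⟩
    obtain ⟨u, rfl, rfl⟩ := (H.nsq_iff c n).mp hn
    obtain ⟨v, rfl, rfl⟩ := (H.nsq_iff d m).mp hm
    refine ⟨u, v, rfl, rfl, ?_⟩
    rw [← H.cst_sub] at hp
    obtain ⟨t, ht, htt⟩ := (H.isPos_iff _).mp hp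
    have h1 := H.cst_inj htt
    have h2 : ‖v‖ ^ 2 - ‖u‖ ^ 2 = t := by exact_mod_cast h1
    exact lt_of_pow_lt_pow_left₀ 2 (norm_nonneg _) (by linarith)
  · rintro ⟨u, v, rfl, rfl, h⟩
    refine ⟨_, _, (H.nsq_iff _ _).mpr ⟨u, rfl, rfl⟩, (H.nsq_iff _ _).mpr ⟨v, rfl, rfl⟩, ?_⟩
    rw [← H.cst_sub, ← Complex.ofReal_sub]
    refine (H.isPos_iff _).mpr ⟨_, ?_, rfl⟩
    have := pow_lt_pow_left₀ h (norm_nonneg _) two_ne_zero
    linarith

theorem absLt_cst (u v : ℂ) : AbsLt (H.cst u) (H.cst v) ↔ ‖u‖ < ‖v‖ := by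
  rw [H.absLt_iff]
  constructor
  · rintro ⟨u', v', h1, h2, h⟩
    rwa [H.cst_inj h1, H.cst_inj h2]
  · intro h
    exact ⟨u, v, rfl, rfl, h⟩

theorem nsq_cst (u : ℂ) (t : ℝ) : NSq (H.cst u) (H.cst t) ↔ ‖u‖ ^ 2 = t := by
  rw [H.nsq_iff]
  constructor
  · rintro ⟨w, h1, h2⟩
    have h3 := H.cst_inj h2
    rw [H.cst_inj h1]
    exact_mod_cast h3.symm
  · intro h
    exact ⟨u, rfl, by rw [h]⟩

theorem isNatC_iff (c : R) : IsNatC c ↔ ∃ n : ℕ, c = H.cst n := by
  constructor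
  · rintro ⟨h1, h2⟩
    obtain ⟨m, rfl⟩ := (H.isZ_iff c).mp h1
    obtain ⟨t, ht, htm⟩ := (H.isNN_iff _).mp h2
    rw [← H.cst_int] at htm
    have h3 := H.cst_inj htm
    have h4 : (m : ℝ) = t := by exact_mod_cast h3
    have h5 : 0 ≤ m := by
      have : (0 : ℝ) ≤ m := by rw [h4]; exact ht
      exact_mod_cast this
    refine ⟨m.toNat, ?_⟩
    rw [← H.cst_int]
    congr 1
    have : ((m.toNat : ℤ) : ℂ) = (m : ℂ) := by rw [Int.toNat_of_nonneg h5]
    rw [← this]
    push_cast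
    rfl
  · rintro ⟨n, rfl⟩
    refine ⟨(H.isZ_iff _).mpr ⟨n, ?_⟩, (H.isNN_iff _).mpr ⟨n, by positivity, ?_⟩⟩
    · rw [← H.cst_int]; push_cast; rfl
    · push_cast; rfl

theorem cst_nonunit_eq {x : R} {m : ℂ} (hx : ¬ IsUnit (x - H.cst m)) {h : R} {b c : ℂ}
    (h1 : (x - H.cst m) ∣ (h - H.cst b)) (h2 : (x - H.cst m) ∣ (h - H.cst c)) : b = c := by
  obtain ⟨z, hz, hz0⟩ := (H.not_isUnit_iff _).mp hx
  have e1 := H.dvd_zero_of h1 hz hz0
  have e2 := H.dvd_zero_of h2 hz hz0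
  rw [H.ev_sub _ _ hz, H.ev_cst _ hz] at e1 e2
  linear_combination e2 - e1

theorem pw_sound {α β : ℂ} {n : ℕ} (h : Pw (H.cst α) (H.cst n) (H.cst β)) : β = α ^ n := by
  obtain ⟨x, h, h1, h2, h3, h4⟩ := h
  have key : ∀ k : ℕ, (x - H.cst k) ∣ (h - H.cst (α ^ k)) := by
    intro k
    induction k with
    | zero =>
      have e0 : H.cst ((0 : ℕ) : ℂ) = 0 := by rw [Nat.cast_zero, H.cst_zero]
      rw [e0, sub_zero, pow_zero, H.cst_one]
      exact h2
    | succ k ih =>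
      have := h3 (H.cst k) (H.cst (α ^ k)) ((H.isNatC_iff _).mpr ⟨k, rfl⟩) (H.isConst_cst _) ih
      have e1 : x - H.cst ((k + 1 : ℕ) : ℂ) = x - H.cst k - 1 := by
        rw [Nat.cast_succ, H.cst_add, H.cst_one]; ring
      have e2 : H.cst (α ^ (k + 1)) = H.cst α * H.cst (α ^ k) := by
        rw [← H.cst_mul]; congr 1; ring
      rw [e1, e2]
      exact this
  exact H.cst_nonunit_eq (h1 _ ((H.isNatC_iff _).mpr ⟨n, rfl⟩)) h4 (key n)

theorem pw_complete {a : ℝ} (ha : 0 < a) (n : ℕ) :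
    Pw (H.cst a) (H.cst n) (H.cst ((a : ℂ) ^ n)) := by
  have hne : ∀ z ∈ ball (0 : ℂ) 1, (1 : ℂ) - z ≠ 0 := by
    intro z hz h
    have : z = 1 := by linear_combination -h
    rw [this] at hz
    simp at hz
  have hxd : DifferentiableOn ℂ (fun z : ℂ => z / (1 - z)) (ball 0 1) := by
    apply DifferentiableOn.div
    · exact differentiableOn_id
    · exact (differentiableOn_const _).sub differentiableOn_id
    · exact hne
  have hhd : DifferentiableOn ℂ (fun z : ℂ => exp ((Real.log a : ℝ) * (z / (1 - z))))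
      (ball 0 1) := (hxd.const_mul _).cexp
  have hcomp : ∀ m : ℂ, ∀ c : ℂ, exp ((Real.log a : ℝ) * m) = c →
      (H.lft _ hxd - H.cst m) ∣ (H.lft _ hhd - H.cst c) := by
    intro m c hc
    apply H.comp_dvd _ (F := fun w => exp ((Real.log a : ℝ) * w) - c) (by fun_prop)
    · rw [hc, sub_self]
    · intro z hz
      rw [H.ev_sub _ _ hz, H.ev_lft _ _ hz, H.ev_lft _ _ hz, H.ev_cst _ hz]
  have hexp : ∀ k : ℕ, exp ((Real.log a : ℝ) * (k : ℂ)) = (a : ℂ) ^ k := by
    intro k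
    rw [mul_comm, exp_nat_mul, ← Complex.ofReal_exp, Real.exp_log ha]
  have hnu : ∀ m : ℕ, ¬ IsUnit (H.lft _ hxd - H.cst m) := by
    intro m
    rw [H.not_isUnit_iff]
    have hm0 : (0 : ℝ) ≤ m := by positivity
    have hmem : ((m / (m + 1) : ℝ) : ℂ) ∈ ball (0 : ℂ) 1 := by
      rw [mem_ball_zero_iff, Complex.norm_real, Real.norm_of_nonneg (by positivity),
        div_lt_one (by positivity)]
      linarith
    refine ⟨_, hmem, ?_⟩
    rw [H.ev_sub _ _ hmem, H.ev_lft _ _ hmem, H.ev_cst _ hmem]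
    have h1 : (m : ℂ) + 1 ≠ 0 := by exact_mod_cast (Nat.succ_ne_zero m)
    push_cast
    have h2 : (1 : ℂ) - m / (m + 1) = 1 / (m + 1) := by field_simp; ring
    rw [h2]
    field_simp
    ring
  refine ⟨H.lft _ hxd, H.lft _ hhd, ?_, ?_, ?_, ?_⟩
  · intro m hm
    obtain ⟨m, rfl⟩ := (H.isNatC_iff m).mp hm
    exact hnu m
  · have := hcomp 0 1 (by simp)
    rwa [H.cst_zero, sub_zero, H.cst_one] at this
  · intro m c hm hc hd
    obtain ⟨m, rfl⟩ := (H.isNatC_iff m).mp hm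
    obtain ⟨c, rfl⟩ := (H.isConst_iff c).mp hc
    have h1 := hcomp m _ (hexp m)
    have h2 := H.cst_nonunit_eq (hnu m) hd h1
    have h3 := hcomp ((m + 1 : ℕ) : ℂ) _ (hexp (m + 1))
    have e1 : H.lft _ hxd - H.cst ((m + 1 : ℕ) : ℂ) = H.lft _ hxd - H.cst m - 1 := by
      rw [Nat.cast_succ, H.cst_add, H.cst_one]; ring
    have e2 : H.cst ((a : ℂ) ^ (m + 1)) = H.cst a * H.cst c := by
      rw [← H.cst_mul, h2]; congr 1; ring
    rw [e1, e2] at h3
    exact h3
  · exact hcomp n _ (hexp n)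

end HolModel

end Pool.Agent.H597R2
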