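import Pool.Agent.H597R2.Wild

set_option autoImplicit false

namespace Pool.Agent.H597R2

open Complex Metric Set Filter Topology

/-- radii -/
noncomputable def Rp (k : ℕ) : ℝ := 1 - 1 / (2 * k + 1)

/-- radii of the wild circles -/
noncomputable def rr (k : ℕ) : ℝ := 1 - 1 / (2 * k + 2)

theorem Rp_nonneg (k : ℕ) : 0 ≤ Rp k := by
  unfold Rp
  rw [sub_nonneg, div_le_one (by positivity)]
  have : (0 : ℝ) ≤ k := by positivity
  linarith

theorem Rp_lt_rr (k : ℕ) : Rp k < rr k := by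
  unfold Rp rr
  have : (0 : ℝ) ≤ k := by positivity
  have : (1 : ℝ) / (2 * k + 2) < 1 / (2 * k + 1) := by
    apply one_div_lt_one_div_of_lt <;> linarith
  linarith

theorem rr_lt_Rp (k : ℕ) : rr k < Rp (k + 1) := by
  unfold Rp rr
  have : (0 : ℝ) ≤ k := by positivity
  have : (1 : ℝ) / (2 * ((k + 1 : ℕ) : ℝ) + 1) < 1 / (2 * k + 2) := by
    push_cast
    apply one_div_lt_one_div_of_lt <;> linarith
  linarith

theorem Rp_lt_one (k : ℕ) : Rp k < 1 := by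
  unfold Rp
  have : (0 : ℝ) < 1 / (2 * k + 1) := by positivity
  linarith

theorem Rp_mono {k l : ℕ} (h : k ≤ l) : Rp k ≤ Rp l := by
  unfold Rp
  have h' : (k : ℝ) ≤ l := by exact_mod_cast h
  have : (1 : ℝ) / (2 * l + 1) ≤ 1 / (2 * k + 1) := by
    apply one_div_le_one_div_of_le
    · positivity
    · linarith
  linarith

theorem exists_lt_Rp {t : ℝ} (ht : t < 1) : ∃ m : ℕ, t < Rp m := by
  obtain ⟨m, hm⟩ := exists_nat_gt (1 / (1 - t))
  refine ⟨m, ?_⟩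
  unfold Rp
  have h0 : 0 < 1 - t := by linarith
  rw [div_lt_iff₀ h0] at hm
  have hm0 : (0 : ℝ) ≤ m := by positivity
  have : (1 : ℝ) / (2 * m + 1) < 1 - t := by
    rw [div_lt_iff₀ (by positivity)]
    nlinarith
  linarith

theorem exists_wild (K δ : ℕ → ℝ) (hδ : ∀ k, 0 < δ k) :
    ∃ x : ℂ → ℂ, DifferentiableOn ℂ x (ball 0 1) ∧ ∀ k, ∀ c : ℂ → ℂ,
      DifferentiableOn ℂ c (ball 0 1) → (∀ z, ‖z‖ ≤ Rp (k + 1) → ‖c z‖ ≤ K k) →
      ∀ z₀ : ℂ, ‖z₀‖ = rr k → ∃ b : ℂ, ‖b - z₀‖ ≤ δ k ∧ ‖b‖ ≤ Rp (k + 1) ∧ x b = c b := by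
  have step : ∀ (k : ℕ) (P : {P : ℂ → ℂ // Differentiable ℂ P}),
      ∃ Q : {P : ℂ → ℂ // Differentiable ℂ P},
        (∀ z, ‖z‖ ≤ Rp k → ‖Q.1 z - P.1 z‖ ≤ 1 / 2 / 2 ^ k) ∧
        ∀ c : ℂ → ℂ, DifferentiableOn ℂ c (ball 0 1) →
          (∀ z, ‖z‖ ≤ Rp (k + 1) → ‖c z‖ ≤ K k + 1) →
          ∀ z₀ : ℂ, ‖z₀‖ = rr k → ∃ b : ℂ, ‖b - z₀‖ ≤ δ k ∧ ‖b‖ ≤ Rp (k + 1) ∧ Q.1 b = c b := by
    intro k P
    obtain ⟨T, hT, hT1, hT2⟩ := wild_step P.2 (K := K k + 1) (Rp_nonneg k) (Rp_lt_rr k)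
      (rr_lt_Rp k) (Rp_lt_one (k + 1)) (hδ k) (show (0 : ℝ) < 1 / 2 / 2 ^ k by positivity)
    refine ⟨⟨fun z => P.1 z + T z, P.2.add hT⟩, ?_, hT2⟩
    intro z hz
    simpa using hT1 z hz
  choose nxt h1 h2 using step
  let Q : ℕ → {P : ℂ → ℂ // Differentiable ℂ P} := fun n =>
    Nat.rec ⟨fun _ => 0, differentiable_const 0⟩ (fun k P => nxt k P) n
  have hQ0 : ∀ z, (Q 0).1 z = 0 := fun z => rfl
  have hQs : ∀ k, Q (k + 1) = nxt k (Q k) := fun k => rfl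
  have hQ1 : ∀ k z, ‖z‖ ≤ Rp k → ‖(Q (k + 1)).1 z - (Q k).1 z‖ ≤ 1 / 2 / 2 ^ k := by
    intro k z hz; rw [hQs]; exact h1 k (Q k) z hz
  let T : ℕ → ℂ → ℂ := fun k z => (Q (k + 1)).1 z - (Q k).1 z
  let x : ℂ → ℂ := fun z => ∑' k, T k z
  have hgeom : ∀ m : ℕ, HasSum (fun k : ℕ => (1 : ℝ) / 2 / 2 ^ (k + m)) (1 / 2 ^ m) := by
    intro m
    have := (hasSum_geometric_two' (1 / 2 ^ m : ℝ))
    convert this using 2 with k
    rw [pow_add]; field_simp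
  have hTb : ∀ m z, ‖z‖ ≤ Rp m → ∀ k, ‖T (k + m) z‖ ≤ 1 / 2 / 2 ^ (k + m) := by
    intro m z hz k
    exact hQ1 (k + m) z (hz.trans (Rp_mono (Nat.le_add_left m k)))
  have hsum : ∀ m z, ‖z‖ ≤ Rp m → Summable (fun k => T k z) := by
    intro m z hz
    rw [← summable_nat_add_iff m]
    exact Summable.of_norm_bounded (hgeom m).summable (hTb m z hz)
  have htel : ∀ m z, ∑ k ∈ Finset.range m, T k z = (Q m).1 z := by
    intro m z
    have := Finset.sum_range_sub (fun k => (Q k).1 z) m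
    rw [hQ0, sub_zero] at this
    exact this
  have hsplit : ∀ m z, ‖z‖ ≤ Rp m → x z = (Q m).1 z + ∑' k, T (k + m) z := by
    intro m z hz
    rw [← htel m z]
    exact ((hsum m z hz).sum_add_tsum_nat_add m).symm
  have htail : ∀ m z, ‖z‖ ≤ Rp m → ‖x z - (Q m).1 z‖ ≤ 1 / 2 ^ m := by
    intro m z hz
    rw [hsplit m z hz, add_sub_cancel_left]
    exact tsum_of_norm_bounded (hgeom m) (hTb m z hz)
  have hxd : DifferentiableOn ℂ x (ball 0 1) := by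
    intro z hz
    obtain ⟨m, hm⟩ := exists_lt_Rp (show ‖z‖ < 1 by simpa using hz)
    have hd : DifferentiableOn ℂ (fun z => ∑' k, T (k + m) z) (ball 0 (Rp m)) := by
      apply differentiableOn_tsum_of_summable_norm (hgeom m).summable
      · intro k
        exact ((Q (k + m + 1)).2.fun_sub (Q (k + m)).2).differentiableOn
      · exact isOpen_ball
      · intro k w hw
        apply hTb m w
        rw [mem_ball_zero_iff] at hw
        exact hw.le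
    have hd2 : DifferentiableOn ℂ x (ball 0 (Rp m)) := by
      apply ((Q m).2.differentiableOn.add hd).congr
      intro w hw
      rw [mem_ball_zero_iff] at hw
      exact hsplit m w hw.le
    have hz' : z ∈ ball (0 : ℂ) (Rp m) := by simpa using hm
    exact ((hd2 z hz').differentiableAt (isOpen_ball.mem_nhds hz')).differentiableWithinAt
  refine ⟨x, hxd, ?_⟩
  intro k c hc hcK z₀ hz₀
  obtain ⟨b, hb1, hb2, hb3⟩ := h2 k (Q k) (fun z => c z - (x z - (Q (k + 1)).1 z))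
    (hc.sub (hxd.sub (Q (k + 1)).2.differentiableOn)) (by
      intro z hz
      have h3 := htail (k + 1) z hz
      have h4 : (1 : ℝ) / 2 ^ (k + 1) ≤ 1 := by
        rw [div_le_one (by positivity)]
        exact one_le_pow₀ (by norm_num)
      calc ‖c z - (x z - (Q (k + 1)).1 z)‖ ≤ ‖c z‖ + ‖x z - (Q (k + 1)).1 z‖ := norm_sub_le _ _
        _ ≤ K k + 1 := add_le_add (hcK z hz) (h3.trans h4)) z₀ hz₀
  refine ⟨b, hb1, hb2, ?_⟩
  rw [← hQs] at hb3
  linear_combination hb3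

end Pool.Agent.H597R2
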