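import Pool.Agent.H597R2.Omit
import Pool.Agent.H597R2.WildLimit

set_option autoImplicit false

namespace Pool.Agent.H597R2

open Complex Metric Set Filter Topology

theorem norm_sin_le_exp (w : ℂ) : ‖Complex.sin w‖ ≤ Real.exp ‖w‖ := by
  rw [Complex.sin]
  have h1 : ‖exp (-w * I)‖ ≤ Real.exp ‖w‖ := by
    rw [Complex.norm_exp]
    refine Real.exp_le_exp.mpr ((Complex.re_le_norm _).trans ?_)
    simp
  have h2 : ‖exp (w * I)‖ ≤ Real.exp ‖w‖ := by
    rw [Complex.norm_exp]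
    refine Real.exp_le_exp.mpr ((Complex.re_le_norm _).trans ?_)
    simp
  have h3 : ‖(exp (-w * I) - exp (w * I)) * I / 2‖ = ‖exp (-w * I) - exp (w * I)‖ / 2 := by
    rw [norm_div, norm_mul]; simp
  rw [h3]
  have h4 := norm_sub_le (exp (-w * I)) (exp (w * I))
  linarith

/-- gap -/
noncomputable def gp (k : ℕ) : ℝ := (Rp (k + 1) - rr k) / 2

theorem gp_pos (k : ℕ) : 0 < gp k := by
  unfold gp; have := rr_lt_Rp k; linarith

/-- bound -/
noncomputable def Kb (k : ℕ) : ℝ := Real.exp (7 * Real.exp (k + 512 * (2 * k + 3)))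

noncomputable def db (k : ℕ) : ℝ := min (gp k) (gp k / (2 ^ k * Real.exp (4 * Kb k)))

theorem db_pos (k : ℕ) : 0 < db k := by
  unfold db
  have := gp_pos k
  exact lt_min this (by positivity)

theorem exists_special :
    ∃ x : ℂ → ℂ, DifferentiableOn ℂ x (ball 0 1) ∧ ∀ c : ℂ → ℂ,
      DifferentiableOn ℂ c (ball 0 1) →
      (∃ A : ℝ, ∀ z ∈ ball (0 : ℂ) 1, ‖c z‖ ≤ Real.exp (7 * Real.exp (A + 512 / (1 - ‖z‖)))) →
      (∀ b ∈ ball (0 : ℂ) 1, x b = c b → ∃ n : ℤ, c b = n) →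
      ∃ n : ℤ, ∀ z ∈ ball (0 : ℂ) 1, c z = n := by
  obtain ⟨x, hx, hwild⟩ := exists_wild Kb db db_pos
  refine ⟨x, hx, ?_⟩
  intro c hc ⟨A, hA⟩ hb
  obtain ⟨k0, hk0⟩ := exists_nat_ge A
  -- the bound on `c`
  have hcK : ∀ k, k0 ≤ k → ∀ z, ‖z‖ ≤ Rp (k + 1) → ‖c z‖ ≤ Kb k := by
    intro k hk z hz
    have hz1 : ‖z‖ < 1 := lt_of_le_of_lt hz (Rp_lt_one _)
    refine (hA z (by simpa using hz1)).trans ?_
    unfold Kb
    have h1 : (k0 : ℝ) ≤ k := by exact_mod_cast hk
    have h2 : (512 : ℝ) / (1 - ‖z‖) ≤ 512 * (2 * k + 3) := by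
      rw [div_le_iff₀ (by linarith)]
      have h3 : 1 / (2 * (k : ℝ) + 3) ≤ 1 - ‖z‖ := by
        have : Rp (k + 1) = 1 - 1 / (2 * (k : ℝ) + 3) := by
          unfold Rp; push_cast; ring_nf
        rw [this] at hz
        linarith
      have h4 : (0 : ℝ) < 2 * k + 3 := by positivity
      rw [div_le_iff₀ h4] at h3
      nlinarith
    gcongr
    linarith
  set s : ℂ → ℂ := fun z => Complex.sin (Real.pi * c z) with hs
  have hsd : DifferentiableOn ℂ s (ball 0 1) := (hc.const_mul _).csin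
  have hsK : ∀ k, k0 ≤ k → ∀ z, ‖z‖ ≤ Rp (k + 1) → ‖s z‖ ≤ Real.exp (4 * Kb k) := by
    intro k hk z hz
    refine (norm_sin_le_exp _).trans (Real.exp_le_exp.mpr ?_)
    rw [norm_mul]
    have : ‖(Real.pi : ℂ)‖ = Real.pi := by simp [abs_of_pos Real.pi_pos]
    rw [this]
    have h1 := Real.pi_lt_d2
    have h2 := hcK k hk z hz
    have h3 := Real.pi_pos
    have h4 := norm_nonneg (c z)
    nlinarith
  have hcirc : ∀ k, k0 ≤ k → ∀ z₀, ‖z₀‖ = rr k → ‖s z₀‖ ≤ 1 / 2 ^ k := by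
    intro k hk z₀ hz₀
    obtain ⟨b, hb1, hb2, hb3⟩ := hwild k c hc (hcK k hk) z₀ hz₀
    have hbball : b ∈ ball (0 : ℂ) 1 := by
      simpa using lt_of_le_of_lt hb2 (Rp_lt_one _)
    obtain ⟨n, hn⟩ := hb b hbball hb3
    have hsb : s b = 0 := by
      simp only [hs, hn]
      rw [Complex.sin_eq_zero_iff]
      exact ⟨n, by ring⟩
    have hg := gp_pos k
    have hbz : ‖b - z₀‖ ≤ gp k := hb1.trans (min_le_left _ _)
    have hder : ∀ w ∈ closedBall z₀ (gp k), ‖deriv s w‖ ≤ Real.exp (4 * Kb k) / gp k := by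
      intro w hw
      rw [mem_closedBall, dist_eq_norm] at hw
      have hsub : closedBall w (gp k) ⊆ closedBall (0 : ℂ) (Rp (k + 1)) := by
        intro v hv
        rw [mem_closedBall, dist_eq_norm] at hv
        rw [mem_closedBall_zero_iff]
        calc ‖v‖ = ‖(v - w) + (w - z₀) + z₀‖ := by ring_nf
          _ ≤ ‖(v - w) + (w - z₀)‖ + ‖z₀‖ := norm_add_le _ _
          _ ≤ ‖v - w‖ + ‖w - z₀‖ + ‖z₀‖ := by gcongr; exact norm_add_le _ _
          _ ≤ gp k + gp k + rr k := by rw [hz₀]; gcongr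
          _ = Rp (k + 1) := by unfold gp; ring
      apply Complex.norm_deriv_le_of_forall_mem_sphere_norm_le hg
      · apply DifferentiableOn.diffContOnCl
        rw [closure_ball w hg.ne']
        exact hsd.mono (hsub.trans (closedBall_subset_ball (Rp_lt_one _)))
      · intro z hz
        apply hsK k hk
        simpa using hsub (sphere_subset_closedBall hz)
    have hsub0 : closedBall z₀ (gp k) ⊆ ball (0 : ℂ) 1 := by
      intro v hv
      rw [mem_closedBall, dist_eq_norm] at hv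
      rw [mem_ball_zero_iff]
      calc ‖v‖ = ‖(v - z₀) + z₀‖ := by ring_nf
        _ ≤ ‖v - z₀‖ + ‖z₀‖ := norm_add_le _ _
        _ ≤ gp k + rr k := by rw [hz₀]; gcongr
        _ < 1 := by
          have h1 := Rp_lt_one (k + 1)
          have h2 : gp k + gp k + rr k = Rp (k + 1) := by unfold gp; ring
          linarith
    have hmv := Convex.norm_image_sub_le_of_norm_deriv_le (𝕜 := ℂ)
      (f := s) (s := closedBall z₀ (gp k)) (x := b) (y := z₀)
      (fun w hw => (hsd w (hsub0 hw)).differentiableAt (isOpen_ball.mem_nhds (hsub0 hw)))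
      hder (convex_closedBall _ _) (by rwa [mem_closedBall, dist_eq_norm])
      (mem_closedBall_self hg.le)
    rw [hsb, sub_zero] at hmv
    have hb1' : ‖z₀ - b‖ ≤ gp k / (2 ^ k * Real.exp (4 * Kb k)) := by
      rw [norm_sub_rev]; exact hb1.trans (min_le_right _ _)
    calc ‖s z₀‖ ≤ Real.exp (4 * Kb k) / gp k * ‖z₀ - b‖ := hmv
      _ ≤ Real.exp (4 * Kb k) / gp k * (gp k / (2 ^ k * Real.exp (4 * Kb k))) := by gcongr
      _ = 1 / 2 ^ k := by field_simp
  have hrr0 : ∀ k, 0 < rr k := fun k => lt_of_le_of_lt (Rp_nonneg k) (Rp_lt_rr k)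
  have hball : ∀ k, k0 ≤ k → ∀ z, ‖z‖ ≤ rr k → ‖s z‖ ≤ 1 / 2 ^ k := by
    intro k hk z hz
    have hsub : closedBall (0 : ℂ) (rr k) ⊆ ball 0 1 :=
      closedBall_subset_ball ((rr_lt_Rp k).trans (Rp_lt_one _))
    apply Complex.norm_le_of_forall_mem_frontier_norm_le (U := ball (0 : ℂ) (rr k))
      isBounded_ball
    · apply DifferentiableOn.diffContOnCl
      rw [closure_ball _ (hrr0 k).ne']
      exact hsd.mono hsub
    · intro w hw
      rw [frontier_ball _ (hrr0 k).ne'] at hw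
      exact hcirc k hk w (by simpa using hw)
    · rw [closure_ball _ (hrr0 k).ne']
      simpa using hz
  have hs0 : ∀ z ∈ ball (0 : ℂ) 1, s z = 0 := by
    intro z hz
    obtain ⟨m, hm⟩ := exists_lt_Rp (show ‖z‖ < 1 by simpa using hz)
    have hle : ∀ k, max k0 m ≤ k → ‖s z‖ ≤ 1 / 2 ^ k := by
      intro k hk
      apply hball k ((le_max_left _ _).trans hk)
      exact hm.le.trans ((Rp_mono ((le_max_right _ _).trans hk)).trans (Rp_lt_rr k).le)
    have hlim : Tendsto (fun k : ℕ => (1 : ℝ) / 2 ^ k) atTop (𝓝 0) := by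
      have := tendsto_pow_atTop_nhds_zero_of_lt_one (r := (1 / 2 : ℝ)) (by norm_num) (by norm_num)
      simpa [one_div, inv_pow] using this
    have : ‖s z‖ ≤ 0 := by
      apply ge_of_tendsto hlim
      filter_upwards [eventually_ge_atTop (max k0 m)] with k hk
      exact hle k hk
    exact norm_le_zero_iff.mp this
  have hZ : ∀ z ∈ ball (0 : ℂ) 1, ∃ n : ℤ, c z = n := by
    intro z hz
    have := hs0 z hz
    simp only [hs] at this
    rw [Complex.sin_eq_zero_iff] at this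
    obtain ⟨n, hn⟩ := this
    refine ⟨n, ?_⟩
    have hpi : (Real.pi : ℂ) ≠ 0 := by exact_mod_cast Real.pi_ne_zero
    have h1 : (Real.pi : ℂ) * (c z - n) = 0 := by linear_combination hn
    rcases mul_eq_zero.mp h1 with h | h
    · exact absurd h hpi
    · exact sub_eq_zero.mp h
  have hdisc : IsDiscrete (Set.range ((↑) : ℤ → ℂ)) := by
    have h2 := Complex.isClosedEmbedding_intCast.isEmbedding.toHomeomorph
    exact ⟨h2.symm.isEmbedding.discreteTopology⟩
  obtain ⟨n, hn⟩ := hZ 0 (mem_ball_self one_pos)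
  refine ⟨n, fun z hz => ?_⟩
  rw [← hn]
  exact (convex_ball (0 : ℂ) 1).isPreconnected.constant_of_mapsTo hdisc hc.continuousOn
    (fun w hw => by obtain ⟨m, hm⟩ := hZ w hw; exact ⟨m, hm.symm⟩) hz (mem_ball_self one_pos)

end Pool.Agent.H597R2
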