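import Mathlib

set_option autoImplicit false

namespace Pool.Agent.H597R2

open Complex Metric Set Filter Topology

/-- zeros from a sphere lower bound -/
theorem exists_zero_closedBall {f : ℂ → ℂ} (hf : DifferentiableOn ℂ f (ball 0 1))
    {a : ℂ} {ρ ε : ℝ} (hρ : 0 < ρ) (hε : 0 < ε) (hsub : closedBall a ρ ⊆ ball 0 1)
    (hsph : ∀ z ∈ sphere a ρ, ε ≤ ‖f z - f a‖) (ha : ‖f a‖ < ε / 2) :
    ∃ b ∈ closedBall a ρ, f b = 0 := by
  have hcont : DiffContOnCl ℂ f (ball a ρ) := by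
    apply DifferentiableOn.diffContOnCl
    rw [closure_ball a hρ.ne']
    exact hf.mono hsub
  have hfreq : ∃ᶠ z in 𝓝 a, f z ≠ f a := by
    by_contra hcon
    rw [not_frequently] at hcon
    have hev : f =ᶠ[𝓝 a] fun _ => f a := by
      filter_upwards [hcon] with z hz
      simpa using hz
    have han : AnalyticOnNhd ℂ f (ball 0 1) := hf.analyticOnNhd isOpen_ball
    have := han.eqOn_of_preconnected_of_eventuallyEq analyticOnNhd_const
      (convex_ball (0 : ℂ) 1).isPreconnected (hsub (mem_closedBall_self hρ.le)) hev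
    have hz : a + ρ ∈ sphere a ρ := by
      simp [abs_of_pos hρ]
    have h1 := hsph _ hz
    have h2 := this (hsub (sphere_subset_closedBall hz))
    simp only at h2
    rw [h2] at h1
    simp at h1
    linarith
  have hmain := hcont.ball_subset_image_closedBall hρ hsph hfreq
  have h0 : (0 : ℂ) ∈ ball (f a) (ε / 2) := by
    rw [mem_ball, dist_eq_norm]
    simpa using ha
  obtain ⟨b, hb, hb0⟩ := hmain h0
  exact ⟨b, hb, hb0⟩

theorem norm_one_add_pow_sub_one_le (u : ℂ) (k : ℕ) :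
    ‖(1 + u) ^ k - 1‖ ≤ (1 + ‖u‖) ^ k - 1 := by
  induction k with
  | zero => simp
  | succ k ih =>
    have e : (1 + u) ^ (k + 1) - 1 = (1 + u) * ((1 + u) ^ k - 1) + u := by ring
    rw [e]
    calc ‖(1 + u) * ((1 + u) ^ k - 1) + u‖ ≤ ‖(1 + u) * ((1 + u) ^ k - 1)‖ + ‖u‖ := norm_add_le _ _
      _ = ‖1 + u‖ * ‖(1 + u) ^ k - 1‖ + ‖u‖ := by rw [norm_mul]
      _ ≤ (1 + ‖u‖) * ((1 + ‖u‖) ^ k - 1) + ‖u‖ := by
        have h1 : ‖1 + u‖ ≤ 1 + ‖u‖ := by simpa using norm_add_le (1 : ℂ) u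
        gcongr
      _ = _ := by ring

theorem lower_bound_pow {N : ℕ} (hN : 0 < N) {u : ℂ} (hu : ‖u‖ = 1 / (2 * N)) :
    7 / 40 ≤ ‖(1 + u) ^ N - 1‖ := by
  have hN' : (0 : ℝ) < N := by exact_mod_cast hN
  have hgeom : (1 + u) ^ N - 1 = (∑ k ∈ Finset.range N, (1 + u) ^ k) * u := by
    have := geom_sum_mul (1 + u) N
    rw [← this]; ring
  have hexp : (1 + ‖u‖) ^ N ≤ 1.65 := by
    have h1 : 1 + ‖u‖ ≤ Real.exp ‖u‖ := by linarith [Real.add_one_le_exp ‖u‖]
    calc (1 + ‖u‖) ^ N ≤ (Real.exp ‖u‖) ^ N := by gcongr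
      _ = Real.exp (1 / 2) := by
        rw [← Real.exp_nat_mul, hu]; congr 1; field_simp
      _ ≤ 1.65 := by
        have h2 : Real.exp (1 / 2) ^ 2 = Real.exp 1 := by
          rw [← Real.exp_nat_mul]; norm_num
        have h3 := Real.exp_one_lt_d9
        have h4 : 0 < Real.exp (1 / 2) := Real.exp_pos _
        nlinarith
  have hterm : ∀ k ∈ Finset.range N, ‖(1 + u) ^ k - 1‖ ≤ 0.65 := by
    intro k hk
    refine (norm_one_add_pow_sub_one_le u k).trans ?_
    have : (1 + ‖u‖) ^ k ≤ (1 + ‖u‖) ^ N := by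
      apply pow_le_pow_right₀ (by linarith [norm_nonneg u]) (Finset.mem_range.mp hk).le
    linarith
  have hsum : ‖(∑ k ∈ Finset.range N, (1 + u) ^ k) - N‖ ≤ 0.65 * N := by
    have e : (∑ k ∈ Finset.range N, (1 + u) ^ k) - (N : ℂ)
        = ∑ k ∈ Finset.range N, ((1 + u) ^ k - 1) := by
      rw [Finset.sum_sub_distrib]; simp
    rw [e]
    refine (norm_sum_le _ _).trans ?_
    refine (Finset.sum_le_sum hterm).trans ?_
    simp
    linarith
  have hlow : 0.35 * N ≤ ‖∑ k ∈ Finset.range N, (1 + u) ^ k‖ := by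
    have h1 : ‖(N : ℂ)‖ ≤ ‖∑ k ∈ Finset.range N, (1 + u) ^ k‖ +
        ‖(∑ k ∈ Finset.range N, (1 + u) ^ k) - N‖ := by
      have : (N : ℂ) = (∑ k ∈ Finset.range N, (1 + u) ^ k) -
        ((∑ k ∈ Finset.range N, (1 + u) ^ k) - N) := by ring
      calc ‖(N : ℂ)‖ = ‖(∑ k ∈ Finset.range N, (1 + u) ^ k) -
        ((∑ k ∈ Finset.range N, (1 + u) ^ k) - N)‖ := by rw [← this]
        _ ≤ _ := norm_sub_le _ _
    have h2 : ‖(N : ℂ)‖ = N := by simp
    linarith
  rw [hgeom, norm_mul, hu]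
  calc (7 : ℝ) / 40 = 0.35 * N * (1 / (2 * N)) := by field_simp; norm_num
    _ ≤ _ := by gcongr

/-- `N`-th roots near any point of a circle -/
theorem exists_root_near {N : ℕ} (hN : 0 < N) {r : ℝ} (hr : 0 < r) {z₀ : ℂ} (hz : ‖z₀‖ = r) :
    ∃ a : ℂ, a ^ N = (r : ℂ) ^ N ∧ ‖a‖ = r ∧ ‖a - z₀‖ ≤ r * (2 * Real.pi / N) := by
  have hN' : (0 : ℝ) < N := by exact_mod_cast hN
  set θ := Complex.arg z₀ with hθ
  have hz0 : z₀ = r * exp (θ * I) := by
    rw [← hz]; exact (Complex.norm_mul_exp_arg_mul_I z₀).symm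
  set j := ⌊(N : ℝ) * θ / (2 * Real.pi)⌋ with hj
  set α : ℝ := 2 * Real.pi * j / N with hα
  have hαθ : |α - θ| ≤ 2 * Real.pi / N := by
    have h1 : (j : ℝ) ≤ (N : ℝ) * θ / (2 * Real.pi) := Int.floor_le _
    have h2 : (N : ℝ) * θ / (2 * Real.pi) < j + 1 := Int.lt_floor_add_one _
    have hpi : 0 < 2 * Real.pi := by positivity
    rw [le_div_iff₀ hpi] at h1
    rw [div_lt_iff₀ hpi] at h2
    have e : α - θ = (j * (2 * Real.pi) - N * θ) / N := by
      rw [hα]; field_simp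
    rw [e, abs_div, abs_of_pos hN']
    gcongr
    rw [abs_le]
    constructor <;> linarith
  refine ⟨r * exp (α * I), ?_, ?_, ?_⟩
  · rw [mul_pow, ← exp_nat_mul]
    have : exp ((N : ℂ) * (α * I)) = 1 := by
      rw [exp_eq_one_iff]
      refine ⟨j, ?_⟩
      rw [hα]
      push_cast
      have : (N : ℂ) ≠ 0 := by exact_mod_cast hN.ne'
      field_simp
    rw [this, mul_one]
  · rw [norm_mul, Complex.norm_exp_ofReal_mul_I]
    simp [abs_of_pos hr]
  · rw [hz0]
    have e : (r : ℂ) * exp (α * I) - r * exp (θ * I)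
        = r * exp (θ * I) * (exp (I * ((α - θ : ℝ) : ℂ)) - 1) := by
      rw [mul_sub, mul_one, mul_assoc, ← exp_add]
      congr 3
      push_cast; ring
    rw [e, norm_mul, norm_mul, Complex.norm_exp_ofReal_mul_I]
    have h1 := Real.norm_exp_I_mul_ofReal_sub_one_le (x := α - θ)
    have h2 : ‖(r : ℂ)‖ = r := by simp [abs_of_pos hr]
    rw [h2, mul_one]
    gcongr
    refine h1.trans ?_
    rw [Real.norm_eq_abs]
    exact hαθ

theorem wild_step {P : ℂ → ℂ} (hP : Differentiable ℂ P) {R' r R K δ η : ℝ}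
    (hR' : 0 ≤ R') (h1 : R' < r) (h2 : r < R) (h3 : R < 1) (hδ : 0 < δ) (hη : 0 < η) :
    ∃ T : ℂ → ℂ, Differentiable ℂ T ∧ (∀ z, ‖z‖ ≤ R' → ‖T z‖ ≤ η) ∧
      ∀ c : ℂ → ℂ, DifferentiableOn ℂ c (ball 0 1) → (∀ z, ‖z‖ ≤ R → ‖c z‖ ≤ K) →
        ∀ z₀ : ℂ, ‖z₀‖ = r → ∃ b : ℂ, ‖b - z₀‖ ≤ δ ∧ ‖b‖ ≤ R ∧ P b + T b = c b := by
  have hr : 0 < r := lt_of_le_of_lt hR' h1
  -- bound of P
  obtain ⟨B, hB⟩ := (isCompact_closedBall (0 : ℂ) R).exists_bound_of_continuousOn
    (f := P) hP.continuous.continuousOn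
  have hB' : ∀ z, ‖z‖ ≤ R → ‖P z‖ ≤ B := fun z hz => hB z (by simpa using hz)
  set K' := |K| + |B| + 1 with hK'
  have hK'0 : 0 < K' := by positivity
  set H := 40 * K' with hH
  have hH0 : 0 < H := by positivity
  set d := min δ (min (R - r) (r - R')) with hd
  have hd0 : 0 < d := by
    apply lt_min hδ (lt_min _ _) <;> linarith
  obtain ⟨N, hN⟩ := exists_nat_gt (8 / d)
  have hNpos : (0 : ℝ) < N := lt_trans (by positivity) hN
  have hN0 : 0 < N := by exact_mod_cast hNpos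
  have hNd : 8 < N * d := by rwa [div_lt_iff₀ hd0] at hN
  set s := (R' + r) / 2 with hs
  have hs0 : 0 < s := by rw [hs]; linarith
  have hR's : R' / s < 1 := by rw [div_lt_one hs0, hs]; linarith
  obtain ⟨M, hM⟩ := exists_pow_lt_of_lt_one (show 0 < η / (2 * H) by positivity) hR's
  set ρ := r / (2 * N) with hρ
  have hρ0 : 0 < ρ := by positivity
  have hr1 : r < 1 := by linarith
  have hρd : ρ ≤ d / 16 := by
    rw [hρ, div_le_div_iff₀ (by positivity) (by norm_num)]
    nlinarith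
  have hd1 : d ≤ δ := min_le_left _ _
  have hd2 : d ≤ R - r := (min_le_right _ _).trans (min_le_left _ _)
  have hd3 : d ≤ r - R' := (min_le_right _ _).trans (min_le_right _ _)
  refine ⟨fun z => H * (z / s) ^ M * ((z / r) ^ N - 1), by fun_prop, ?_, ?_⟩
  · intro z hz
    rw [norm_mul, norm_mul, norm_pow, norm_div]
    have e1 : ‖(H : ℂ)‖ = H := by simp [abs_of_pos hH0]
    have e2 : ‖(s : ℂ)‖ = s := by simp [abs_of_pos hs0]
    have e3 : ‖(r : ℂ)‖ = r := by simp [abs_of_pos hr]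
    have e4 : ‖(z / r) ^ N - 1‖ ≤ 2 := by
      calc ‖(z / r) ^ N - 1‖ ≤ ‖(z / r) ^ N‖ + ‖(1 : ℂ)‖ := norm_sub_le _ _
        _ ≤ 1 + 1 := by
          gcongr
          · rw [norm_pow, norm_div, e3]
            apply pow_le_one₀ (by positivity)
            rw [div_le_one hr]; linarith
          · simp
        _ = 2 := by norm_num
    rw [e1, e2]
    calc H * (‖z‖ / s) ^ M * ‖(z / r) ^ N - 1‖ ≤ H * (R' / s) ^ M * 2 := by gcongr
      _ ≤ H * (η / (2 * H)) * 2 := by gcongr
      _ = η := by field_simp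
  · intro c hc hcK z₀ hz₀
    obtain ⟨a, haN, har, haz⟩ := exists_root_near hN0 hr hz₀
    set T : ℂ → ℂ := fun z => H * (z / s) ^ M * ((z / r) ^ N - 1) with hT
    have hrC : (r : ℂ) ≠ 0 := by exact_mod_cast hr.ne'
    have ha0 : a ≠ 0 := by
      intro h; rw [h] at har; simp at har; linarith
    have hTa : T a = 0 := by
      simp only [hT, div_pow, haN]
      rw [div_self (pow_ne_zero _ hrC)]; simp
    have hbR : closedBall a ρ ⊆ closedBall 0 R := by
      intro w hw
      rw [mem_closedBall, dist_eq_norm] at hw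
      rw [mem_closedBall_zero_iff]
      calc ‖w‖ = ‖(w - a) + a‖ := by ring_nf
        _ ≤ ‖w - a‖ + ‖a‖ := norm_add_le _ _
        _ ≤ ρ + r := by rw [har]; gcongr
        _ ≤ R := by linarith
    have hsub : closedBall a ρ ⊆ ball 0 1 := hbR.trans (closedBall_subset_ball h3)
    have hbd : ∀ w ∈ closedBall a ρ, ‖P w - c w‖ ≤ K' := by
      intro w hw
      have hw' : ‖w‖ ≤ R := by simpa using hbR hw
      calc ‖P w - c w‖ ≤ ‖P w‖ + ‖c w‖ := norm_sub_le _ _
        _ ≤ B + K := add_le_add (hB' w hw') (hcK w hw')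
        _ ≤ K' := by rw [hK']; linarith [le_abs_self K, le_abs_self B]
    have hTsph : ∀ z ∈ sphere a ρ, 7 * K' ≤ ‖T z‖ := by
      intro z hz
      rw [mem_sphere, dist_eq_norm] at hz
      set u := (z - a) / a with hu
      have hun : ‖u‖ = 1 / (2 * N) := by
        rw [hu, norm_div, hz, har, hρ]; field_simp
      have hz1 : z = a * (1 + u) := by rw [hu]; field_simp; ring
      have e1 : (z / r) ^ N = (1 + u) ^ N := by
        rw [hz1, div_pow, mul_pow, haN]; field_simp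
      have e2 : ‖(H : ℂ)‖ = H := by simp [abs_of_pos hH0]
      have e3 : ‖(s : ℂ)‖ = s := by simp [abs_of_pos hs0]
      have hzs : s ≤ ‖z‖ := by
        have : ‖a‖ ≤ ‖z‖ + ‖z - a‖ := by
          calc ‖a‖ = ‖z - (z - a)‖ := by ring_nf
            _ ≤ _ := norm_sub_le _ _
        rw [har, hz] at this
        rw [hs]; linarith
      simp only [hT]
      rw [e1, norm_mul, norm_mul, e2, norm_pow, norm_div, e3]
      have h5 : 1 ≤ (‖z‖ / s) ^ M := by
        apply one_le_pow₀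
        rw [one_le_div hs0]; exact hzs
      calc 7 * K' = H * 1 * (7 / 40) := by rw [hH]; ring
        _ ≤ _ := by
          gcongr
          exact lower_bound_pow hN0 hun
    have hfd : DifferentiableOn ℂ (fun z => P z + T z - c z) (ball 0 1) := by
      have hTd : Differentiable ℂ T := by simp only [hT]; fun_prop
      exact (hP.differentiableOn.add hTd.differentiableOn).sub hc
    obtain ⟨b, hb, hb0⟩ := exists_zero_closedBall (f := fun z => P z + T z - c z) hfd
      (a := a) (ρ := ρ) (ε := 5 * K') hρ0 (by positivity) hsub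
      (by
        intro z hz
        have hT1 := hTsph z hz
        have hb1 := hbd z (sphere_subset_closedBall hz)
        have hb2 := hbd a (mem_closedBall_self hρ0.le)
        have e : T z = (P z + T z - c z - (P a + T a - c a)) - (P z - c z) + (P a - c a) := by
          rw [hTa]; ring
        have h6 : ‖T z‖ ≤ ‖P z + T z - c z - (P a + T a - c a)‖ + ‖P z - c z‖ + ‖P a - c a‖ := by
          calc ‖T z‖ = ‖(P z + T z - c z - (P a + T a - c a)) - (P z - c z) + (P a - c a)‖ := by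
                rw [← e]
            _ ≤ ‖(P z + T z - c z - (P a + T a - c a)) - (P z - c z)‖ + ‖P a - c a‖ :=
                norm_add_le _ _
            _ ≤ _ := by gcongr; exact norm_sub_le _ _
        linarith)
      (by
        have hb2 := hbd a (mem_closedBall_self hρ0.le)
        simp only [hTa, add_zero]
        linarith)
    refine ⟨b, ?_, by simpa using hbR hb, ?_⟩
    · rw [mem_closedBall, dist_eq_norm] at hb
      have hpi : Real.pi < 3.15 := Real.pi_lt_d2
      have h7 : r * (2 * Real.pi / N) ≤ 6.3 / 8 * d := by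
        have : r * (2 * Real.pi / N) ≤ 1 * (6.3 / N) := by
          gcongr
          linarith
        refine this.trans ?_
        rw [one_mul, div_le_iff₀ hNpos]
        nlinarith
      calc ‖b - z₀‖ = ‖(b - a) + (a - z₀)‖ := by ring_nf
        _ ≤ ‖b - a‖ + ‖a - z₀‖ := norm_add_le _ _
        _ ≤ ρ + r * (2 * Real.pi / N) := add_le_add hb haz
        _ ≤ δ := by linarith
    · exact sub_eq_zero.mp hb0

end Pool.Agent.H597R2
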